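import Mathlib

/-!
# The circle and the boundary of the unit square of the `ℓ¹` norm
-/

set_option autoImplicit false

open Set Topology Filter Real

namespace Pool.Agent.H745.Diamond

/-- first coordinate -/
noncomputable def A0 (z : Circle) : ℝ := 2 / π * arcsin (z : ℂ).re

/-- second coordinate -/
noncomputable def A1 (z : Circle) : ℝ := 2 / π * arcsin (z : ℂ).im

lemma continuous_A0 : Continuous A0 := by
  unfold A0
  exact continuous_const.mul
    (continuous_arcsin.comp (Complex.continuous_re.comp (by fun_prop)))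

lemma continuous_A1 : Continuous A1 := by
  unfold A1
  exact continuous_const.mul
    (continuous_arcsin.comp (Complex.continuous_im.comp (by fun_prop)))

lemma sq_sum (z : Circle) : (z : ℂ).re ^ 2 + (z : ℂ).im ^ 2 = 1 := by
  have := Circle.normSq_coe z
  rw [Complex.normSq_apply] at this
  linarith

lemma abs_arcsin' (x : ℝ) : |arcsin x| = arcsin |x| := by
  rcases le_total 0 x with h | h
  · rw [abs_of_nonneg h, abs_of_nonneg (arcsin_nonneg.2 h)]
  · rw [abs_of_nonpos h, arcsin_neg, abs_of_nonpos (arcsin_nonpos.2 h)]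

lemma A_sum (z : Circle) : |A0 z| + |A1 z| = 1 := by
  have hsq := sq_sum z
  have h1 : |(z : ℂ).im| = √(1 - |(z : ℂ).re| ^ 2) := by
    rw [eq_comm, Real.sqrt_eq_iff_mul_self_eq]
    · rw [sq_abs, ← sq, sq_abs]; linarith
    · rw [sq_abs]; nlinarith [sq_nonneg (z : ℂ).im]
    · exact abs_nonneg _
  have h2 : arcsin |(z : ℂ).im| = π / 2 - arcsin |(z : ℂ).re| := by
    rw [h1, ← arccos_eq_arcsin (abs_nonneg _), arccos]
  rw [A0, A1, abs_mul, abs_mul, abs_arcsin', abs_arcsin', h2,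
    abs_of_pos (by positivity : (0:ℝ) < 2 / π)]
  have := pi_pos
  field_simp
  ring

lemma re_mem (z : Circle) : -1 ≤ (z : ℂ).re ∧ (z : ℂ).re ≤ 1 := by
  have := sq_sum z
  constructor <;> nlinarith [sq_nonneg (z : ℂ).im]

lemma im_mem (z : Circle) : -1 ≤ (z : ℂ).im ∧ (z : ℂ).im ≤ 1 := by
  have := sq_sum z
  constructor <;> nlinarith [sq_nonneg (z : ℂ).re]

lemma sin_A0 (z : Circle) : sin (π / 2 * A0 z) = (z : ℂ).re := by
  have h : π / 2 * A0 z = arcsin (z : ℂ).re := by
    rw [A0]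
    have := pi_pos
    field_simp
  rw [h, sin_arcsin (re_mem z).1 (re_mem z).2]

lemma sin_A1 (z : Circle) : sin (π / 2 * A1 z) = (z : ℂ).im := by
  have h : π / 2 * A1 z = arcsin (z : ℂ).im := by
    rw [A1]
    have := pi_pos
    field_simp
  rw [h, sin_arcsin (im_mem z).1 (im_mem z).2]

lemma A_inj {z z' : Circle} (h0 : A0 z = A0 z') (h1 : A1 z = A1 z') : z = z' := by
  apply Subtype.ext
  apply Complex.ext
  · rw [← sin_A0, ← sin_A0, h0]
  · rw [← sin_A1, ← sin_A1, h1]

lemma A_surj {a b : ℝ} (h : |a| + |b| = 1) : ∃ z : Circle, A0 z = a ∧ A1 z = b := by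
  have ha : |a| ≤ 1 := by linarith [abs_nonneg b]
  have hb : |b| ≤ 1 := by linarith [abs_nonneg a]
  have hpi := pi_pos
  have h1 : sin (π / 2 * b) ^ 2 = cos (π / 2 * a) ^ 2 := by
    rw [← sq_abs (sin (π / 2 * b)), ← sq_abs (cos (π / 2 * a))]
    have e1 : |sin (π / 2 * b)| = |sin (π / 2 * |b|)| := by
      rcases abs_choice b with h | h
      · rw [h]
      · rw [h, mul_neg, sin_neg, abs_neg]
    have e2 : |cos (π / 2 * a)| = |cos (π / 2 * |a|)| := by
      rcases abs_choice a with h | h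
      · rw [h]
      · rw [h, mul_neg, cos_neg]
    rw [e1, e2, show π / 2 * |b| = π / 2 - π / 2 * |a| by rw [← eq_sub_iff_add_eq'] at h; rw [h]; ring,
      sin_pi_div_two_sub]
  have h2 : Complex.normSq ⟨sin (π / 2 * a), sin (π / 2 * b)⟩ = 1 := by
    rw [Complex.normSq_apply]
    nlinarith [sin_sq_add_cos_sq (π / 2 * a)]
  have h3 : (⟨sin (π / 2 * a), sin (π / 2 * b)⟩ : ℂ) ∈ Submonoid.unitSphere ℂ := by
    rw [Submonoid.unitSphere]
    have : ‖(⟨sin (π / 2 * a), sin (π / 2 * b)⟩ : ℂ)‖ = 1 := by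
      rw [Complex.norm_def, h2, sqrt_one]
    exact mem_sphere_zero_iff_norm.2 this
  refine ⟨⟨_, h3⟩, ?_, ?_⟩
  · change 2 / π * arcsin (sin (π / 2 * a)) = a
    rw [arcsin_sin]
    · field_simp
    · nlinarith [neg_abs_le a]
    · nlinarith [le_abs_self a]
  · change 2 / π * arcsin (sin (π / 2 * b)) = b
    rw [arcsin_sin]
    · field_simp
    · nlinarith [neg_abs_le b]
    · nlinarith [le_abs_self b]

lemma A_exp (z : Circle) {ε : ℝ} (hε : ε = 1 ∨ ε = -1) (h : 0 ≤ ε * A1 z) :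
    z = Circle.exp (2 * π * (ε * (1 - A0 z) / 4)) := by
  have hpi := pi_pos
  have hb : A1 z = ε * (1 - |A0 z|) := by
    have hs := A_sum z
    rcases hε with rfl | rfl
    · rw [one_mul] at h
      rw [abs_of_nonneg h] at hs
      linarith
    · have h' : A1 z ≤ 0 := by linarith
      rw [abs_of_nonpos h'] at hs
      linarith
  apply Subtype.ext
  rw [Circle.coe_exp]
  have harg : 2 * π * (ε * (1 - A0 z) / 4) = ε * (π / 2 - π / 2 * A0 z) := by ring
  rw [harg]
  apply Complex.ext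
  · rw [Complex.exp_ofReal_mul_I_re, ← sin_A0]
    rcases hε with rfl | rfl
    · rw [one_mul, cos_pi_div_two_sub]
    · rw [neg_one_mul, cos_neg, cos_pi_div_two_sub]
  · rw [Complex.exp_ofReal_mul_I_im, ← sin_A1, hb]
    have e2 : cos (π / 2 * |A0 z|) = cos (π / 2 * A0 z) := by
      rcases abs_choice (A0 z) with h | h
      · rw [h]
      · rw [h, mul_neg, cos_neg]
    rcases hε with rfl | rfl
    · rw [one_mul, one_mul, sin_pi_div_two_sub, ← e2, ← sin_pi_div_two_sub]
      congr 1; ring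
    · rw [neg_one_mul, neg_one_mul, sin_neg, sin_pi_div_two_sub, ← e2, ← sin_pi_div_two_sub,
        ← sin_neg]
      congr 1; ring

/-- `arccos |cos y| ≤ |y|` -/
lemma arccos_abs_cos_le (y : ℝ) : arccos |cos y| ≤ |y| := by
  rcases le_total (π / 2) |y| with h | h
  · exact (arccos_le_pi_div_two.2 (abs_nonneg _)).trans h
  · have h1 : 0 ≤ cos y := cos_nonneg_of_mem_Icc ⟨by linarith [neg_abs_le y], by
      linarith [le_abs_self y]⟩
    rw [abs_of_nonneg h1, ← cos_abs, arccos_cos (abs_nonneg _) (by linarith [pi_pos])]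

lemma arccos_abs_cos_eq {y : ℝ} (h : |y| ≤ π / 2) : arccos |cos y| = |y| := by
  have h1 : 0 ≤ cos y := cos_nonneg_of_mem_Icc ⟨by linarith [neg_abs_le y], by
      linarith [le_abs_self y]⟩
  rw [abs_of_nonneg h1, ← cos_abs, arccos_cos (abs_nonneg _) (by linarith [pi_pos])]

lemma abs_cos_shift (θ : ℝ) (n : ℤ) : |cos (2 * π * θ)| = |cos (π * (2 * θ - n))| := by
  have : π * (2 * θ - n) = 2 * π * θ - n * π := by ring
  rw [this, cos_sub_int_mul_pi, abs_mul]
  have h1 : |((-1 : ℝ) ^ n)| = 1 := by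
    rw [abs_zpow, abs_neg, abs_one, one_zpow]
  rw [h1, one_mul]

lemma K1 (θ : ℝ) (n : ℤ) : arccos |cos (2 * π * θ)| ≤ π * |2 * θ - n| := by
  rw [abs_cos_shift θ n]
  refine (arccos_abs_cos_le _).trans ?_
  rw [abs_mul, abs_of_pos pi_pos]

lemma K2 (θ : ℝ) : arccos |cos (2 * π * θ)| = π * |2 * θ - round (2 * θ)| := by
  rw [abs_cos_shift θ (round (2 * θ)), arccos_abs_cos_eq, abs_mul, abs_of_pos pi_pos]
  rw [abs_mul, abs_of_pos pi_pos]
  have := abs_sub_round (2 * θ)
  nlinarith [pi_pos]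

end Pool.Agent.H745.Diamond
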