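import Mathlib

/-!
# The radial function which straightens the two holes
-/

set_option autoImplicit false

open Set Topology Filter Real

namespace Pool.Agent.H745.Radial

/-- half chord -/
noncomputable def q (γ : ℝ) : ℝ := √(γ ^ 2 - 3 / 4)

/-- inner radius of the hole in the direction `γ` -/
noncomputable def a (γ : ℝ) : ℝ := max γ (√3 / 2) - q γ

/-- outer radius -/
noncomputable def b (γ : ℝ) : ℝ := max γ (√3 / 2) + q γ

/-- the angular coordinate -/
noncomputable def e (γ : ℝ) : ℝ := min 1 (6 / π * arccos γ)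

lemma continuous_q : Continuous q := by unfold q; fun_prop

lemma continuous_a : Continuous a := by
  unfold a
  exact (continuous_id.max continuous_const).sub continuous_q

lemma continuous_b : Continuous b := by
  unfold b
  exact (continuous_id.max continuous_const).add continuous_q

lemma continuous_e : Continuous e := by
  unfold e
  exact continuous_const.min (continuous_const.mul continuous_arccos)

lemma s3 : √3 ^ 2 = 3 := Real.sq_sqrt (by norm_num)

lemma s3pos : 0 < √3 := Real.sqrt_pos.2 (by norm_num)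

lemma s3lt : √3 < 2 := by
  nlinarith [s3, s3pos]

lemma ab_eq {γ : ℝ} (h0 : 0 ≤ γ) : a γ * b γ = 3 / 4 := by
  unfold a b q
  have h3 := s3
  have h3p := s3pos
  rcases le_total γ (√3 / 2) with h | h
  · have h1 : γ ^ 2 - 3 / 4 ≤ 0 := by nlinarith
    rw [max_eq_right h, Real.sqrt_eq_zero_of_nonpos h1]
    nlinarith
  · have h1 : 0 ≤ γ ^ 2 - 3 / 4 := by nlinarith
    rw [max_eq_left h]
    nlinarith [Real.sq_sqrt h1]

lemma q_nonneg (γ : ℝ) : 0 ≤ q γ := Real.sqrt_nonneg _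

lemma b_ge (γ : ℝ) : √3 / 2 ≤ b γ := by
  unfold b
  have := q_nonneg γ
  have := le_max_right γ (√3 / 2)
  linarith

lemma a_pos {γ : ℝ} (h0 : 0 ≤ γ) : 0 < a γ := by
  have h1 := ab_eq h0
  have h2 := b_ge γ
  have h3 := s3pos
  by_contra h
  push Not at h
  nlinarith

lemma a_le {γ : ℝ} (h0 : 0 ≤ γ) : a γ ≤ √3 / 2 := by
  have h1 := ab_eq h0
  have h2 := b_ge γ
  have h3 := s3pos
  have h4 := s3
  have h5 := a_pos h0
  nlinarith

lemma b_lt {γ : ℝ} (h0 : 0 ≤ γ) (h1 : γ ≤ 1) : b γ < 2 := by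
  unfold b q
  have h3 := s3lt
  have h4 : √(γ ^ 2 - 3 / 4) ≤ 1 / 2 := by
    rw [Real.sqrt_le_left (by norm_num)]
    nlinarith
  have h5 : max γ (√3 / 2) ≤ 1 := max_le h1 (by linarith)
  linarith

lemma e_le (γ : ℝ) : e γ ≤ 1 := min_le_left _ _

lemma e_nonneg (γ : ℝ) : 0 ≤ e γ := by
  unfold e
  have := arccos_nonneg γ
  have := pi_pos
  apply le_min <;> positivity

lemma e_eq_of_le {γ : ℝ} (h0 : 0 ≤ γ) (h : γ ≤ √3 / 2) : e γ = 1 := by
  unfold e
  rw [min_eq_left]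
  have h1 : π / 6 ≤ arccos γ := by
    rw [← arccos_cos (x := π / 6) (by positivity) (by linarith [pi_pos]), cos_pi_div_six]
    exact arccos_le_arccos h
  have := pi_pos
  rw [div_mul_eq_mul_div, le_div_iff₀ pi_pos]
  linarith

lemma e_lt_of_lt {γ : ℝ} (h : √3 / 2 < γ) (h1 : γ ≤ 1) : e γ < 1 := by
  unfold e
  apply min_lt_of_right_lt
  have h1 : arccos γ < π / 6 := by
    rw [← arccos_cos (x := π / 6) (by positivity) (by linarith [pi_pos]), cos_pi_div_six]
    exact arccos_lt_arccos (by linarith [s3pos]) h h1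
  have := pi_pos
  rw [div_mul_eq_mul_div, div_lt_iff₀ pi_pos]
  linarith

lemma a_eq_of_le {γ : ℝ} (h0 : 0 ≤ γ) (h : γ ≤ √3 / 2) : a γ = √3 / 2 := by
  unfold a q
  have h3 := s3
  have h3p := s3pos
  have h1 : γ ^ 2 - 3 / 4 ≤ 0 := by nlinarith
  rw [max_eq_right h, Real.sqrt_eq_zero_of_nonpos h1, sub_zero]

lemma b_eq_of_le {γ : ℝ} (h0 : 0 ≤ γ) (h : γ ≤ √3 / 2) : b γ = √3 / 2 := by
  unfold b q
  have h3 := s3
  have h3p := s3pos
  have h1 : γ ^ 2 - 3 / 4 ≤ 0 := by nlinarith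
  rw [max_eq_right h, Real.sqrt_eq_zero_of_nonpos h1, add_zero]

lemma a_lt_of_lt {γ : ℝ} (h0 : 0 ≤ γ) (h : √3 / 2 < γ) : a γ < √3 / 2 := by
  have h1 := ab_eq h0
  have h3 := s3pos
  have h4 := s3
  have h5 := a_pos h0
  have h6 : √3 / 2 < b γ := by
    unfold b
    have := q_nonneg γ
    have := le_max_left γ (√3 / 2)
    linarith
  nlinarith

/-- the key equivalence for the three-holed set `B` on a ray -/
lemma key_iff {γ m : ℝ} (h0 : 0 ≤ γ) (hm : 0 ≤ m) :
    1 / 4 ≤ m ^ 2 - 2 * (m * γ) + 1 ↔ (m ≤ a γ ∨ b γ ≤ m) := by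
  have h3 := s3
  have h3p := s3pos
  rcases le_total γ (√3 / 2) with h | h
  · rw [a_eq_of_le h0 h, b_eq_of_le h0 h]
    constructor
    · intro _; exact le_total _ _
    · intro _
      nlinarith [sq_nonneg (m - √3 / 2), mul_le_mul_of_nonneg_left h hm]
  · have hprod : (m - a γ) * (m - b γ) = m ^ 2 - 2 * (m * γ) + 3 / 4 := by
      have h1 := ab_eq h0
      have h2 : a γ + b γ = 2 * γ := by
        unfold a b
        rw [max_eq_left h]; ring
      linear_combination (-m) * h2 + h1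
    have hab : a γ ≤ b γ := by
      unfold a b
      linarith [q_nonneg γ]
    constructor
    · intro hle
      by_contra hcon
      push Not at hcon
      nlinarith [mul_pos (sub_pos.2 hcon.1) (sub_pos.2 hcon.2)]
    · rintro (h1 | h1)
      · nlinarith [mul_nonneg (sub_nonneg.2 h1) (sub_nonneg.2 (h1.trans hab))]
      · nlinarith [mul_nonneg (sub_nonneg.2 (hab.trans h1)) (sub_nonneg.2 h1)]

/-- the new radial coordinate, from `[0, 2]` onto `[0, 4]` -/
noncomputable def sig (m γ : ℝ) : ℝ :=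
  if m ≤ √3 / 2 then m / a γ * (3 / 2 + e γ) else 4 - (2 - m) / (2 - b γ) * (1 / 2 + e γ)

/-- the two formulas agree at the joint -/
lemma agree {m γ : ℝ} (h0 : 0 ≤ γ) (hB : m ≤ a γ ∨ b γ ≤ m) (hm : m = √3 / 2) :
    m / a γ * (3 / 2 + e γ) = 4 - (2 - m) / (2 - b γ) * (1 / 2 + e γ) := by
  have hγ : γ ≤ √3 / 2 := by
    by_contra hcon
    push Not at hcon
    have h1 := a_lt_of_lt h0 hcon
    rcases hB with h | h
    · linarith
    · unfold b at h
      have := q_nonneg γ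
      have := le_max_left γ (√3 / 2)
      linarith
  have h3 := s3pos
  have h3' := s3lt
  rw [hm, a_eq_of_le h0 hγ, b_eq_of_le h0 hγ, e_eq_of_le h0 hγ, div_self (by positivity),
    div_self (by linarith)]
  norm_num

lemma sig_cases {m γ : ℝ} (h0 : 0 ≤ γ) (hB : m ≤ a γ ∨ b γ ≤ m) :
    (m ≤ a γ ∧ m ≤ √3 / 2 ∧ sig m γ = m / a γ * (3 / 2 + e γ)) ∨
    (b γ ≤ m ∧ √3 / 2 ≤ m ∧ sig m γ = 4 - (2 - m) / (2 - b γ) * (1 / 2 + e γ)) := by
  by_cases hm : m ≤ √3 / 2
  · left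
    refine ⟨?_, hm, if_pos hm⟩
    rcases hB with h | h
    · exact h
    · have hb := b_ge γ
      have hmeq : m = √3 / 2 := le_antisymm hm (hb.trans h)
      have hbeq : b γ = √3 / 2 := le_antisymm (h.trans hm) hb
      have h1 := ab_eq h0
      have h3 := s3
      have h3p := s3pos
      rw [hbeq] at h1
      have : a γ = √3 / 2 := by
        have h5 : (a γ - √3 / 2) * √3 = 0 := by nlinarith
        rcases mul_eq_zero.1 h5 with h6 | h6
        · linarith
        · exact absurd h6 h3p.ne'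
      rw [this, hmeq]
  · right
    push Not at hm
    refine ⟨?_, hm.le, if_neg (not_le.2 hm)⟩
    rcases hB with h | h
    · exact absurd (h.trans (a_le h0)) (not_le.2 hm)
    · exact h

lemma sig_eq_right {m γ : ℝ} (h0 : 0 ≤ γ) (hB : b γ ≤ m) :
    sig m γ = 4 - (2 - m) / (2 - b γ) * (1 / 2 + e γ) := by
  by_cases hm : m ≤ √3 / 2
  · rw [sig, if_pos hm]
    exact agree h0 (Or.inr hB) (le_antisymm hm ((b_ge γ).trans hB))
  · rw [sig, if_neg hm]

/-- bounds on the two pieces -/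
lemma left_bounds {m γ : ℝ} (h0 : 0 ≤ γ) (hm0 : 0 ≤ m) (hm : m ≤ a γ) :
    0 ≤ m / a γ * (3 / 2 + e γ) ∧ m / a γ * (3 / 2 + e γ) ≤ 3 / 2 + e γ := by
  have ha := a_pos h0
  have he := e_nonneg γ
  refine ⟨by positivity, ?_⟩
  have h1 : m / a γ ≤ 1 := (div_le_one ha).2 hm
  nlinarith

lemma right_bounds {m γ : ℝ} (h0 : 0 ≤ γ) (h1 : γ ≤ 1) (hm2 : m ≤ 2) (hm : b γ ≤ m) :
    7 / 2 - e γ ≤ 4 - (2 - m) / (2 - b γ) * (1 / 2 + e γ) ∧
      4 - (2 - m) / (2 - b γ) * (1 / 2 + e γ) ≤ 4 := by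
  have hb := b_lt h0 h1
  have he := e_nonneg γ
  have h2 : (2 - m) / (2 - b γ) ≤ 1 := (div_le_one (by linarith)).2 (by linarith)
  have h3 : 0 ≤ (2 - m) / (2 - b γ) := div_nonneg (by linarith) (by linarith)
  constructor
  · nlinarith
  · nlinarith

lemma sig_zero (γ : ℝ) : sig 0 γ = 0 := by
  rw [sig, if_pos (by have := s3pos; positivity)]
  simp

lemma sig_bounds {m γ : ℝ} (h0 : 0 ≤ γ) (h1 : γ ≤ 1) (hm0 : 0 ≤ m) (hm2 : m ≤ 2)
    (hB : m ≤ a γ ∨ b γ ≤ m) : 0 ≤ sig m γ ∧ sig m γ ≤ 4 ∧ 1 - e γ ≤ |sig m γ - 5 / 2| ∧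
      (sig m γ = 0 → m = 0) := by
  have he := e_nonneg γ
  have he1 := e_le γ
  rcases sig_cases h0 hB with ⟨h2, _, h3⟩ | ⟨h2, _, h3⟩
  · have h4 := left_bounds h0 hm0 h2
    rw [← h3] at h4
    refine ⟨h4.1, by linarith, ?_, ?_⟩
    · rw [abs_of_nonpos (by linarith)]
      linarith
    · intro h5
      rw [h3] at h5
      have ha := a_pos h0
      rcases mul_eq_zero.1 h5 with h6 | h6
      · rcases div_eq_zero_iff.1 h6 with h7 | h7
        · exact h7
        · linarith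
      · linarith
  · have h4 := right_bounds h0 h1 hm2 h2
    rw [← h3] at h4
    refine ⟨by linarith, h4.2, ?_, ?_⟩
    · rw [abs_of_nonneg (by linarith)]
      linarith
    · intro h5
      linarith

lemma sig_inj {m m' γ : ℝ} (h0 : 0 ≤ γ) (h1 : γ ≤ 1) (hm0 : 0 ≤ m) (hm2 : m ≤ 2)
    (hB : m ≤ a γ ∨ b γ ≤ m) (hm0' : 0 ≤ m') (hm2' : m' ≤ 2)
    (hB' : m' ≤ a γ ∨ b γ ≤ m') (h : sig m γ = sig m' γ) : m = m' := by
  have he := e_nonneg γ
  have he1 := e_le γ
  have ha := a_pos h0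
  have hb := b_lt h0 h1
  -- mixed case
  have mixed : ∀ x y : ℝ, 0 ≤ x → y ≤ 2 → x ≤ a γ → b γ ≤ y →
      x / a γ * (3 / 2 + e γ) = 4 - (2 - y) / (2 - b γ) * (1 / 2 + e γ) → x = y := by
    intro x y hx hy hxa hby hxy
    have h2 := left_bounds h0 hx hxa
    have h3 := right_bounds h0 h1 hy hby
    have he2 : e γ = 1 := by linarith
    have hγ : γ ≤ √3 / 2 := by
      by_contra hcon
      push Not at hcon
      have := e_lt_of_lt hcon h1
      linarith
    have hl : x / a γ * (3 / 2 + e γ) = 5 / 2 := by linarith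
    have hr : 4 - (2 - y) / (2 - b γ) * (1 / 2 + e γ) = 5 / 2 := by linarith
    rw [he2, a_eq_of_le h0 hγ] at hl
    rw [he2, b_eq_of_le h0 hγ] at hr
    have h3p := s3pos
    have h3l := s3lt
    have hl' : x = √3 / 2 := by
      field_simp at hl
      linarith
    have hr' : (2 - y) / (2 - √3 / 2) = 1 := by linarith
    rw [div_eq_one_iff_eq (by linarith)] at hr'
    linarith
  rcases sig_cases h0 hB with ⟨h2, _, h3⟩ | ⟨h2, _, h3⟩ <;>
    rcases sig_cases h0 hB' with ⟨h2', _, h3'⟩ | ⟨h2', _, h3'⟩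
  · rw [h3, h3'] at h
    have h4 : (3 / 2 + e γ) ≠ 0 := by linarith
    have h5 := mul_right_cancel₀ h4 h
    field_simp at h5
    exact h5
  · rw [h3, h3'] at h
    exact mixed m m' hm0 hm2' h2 h2' h
  · rw [h3, h3'] at h
    exact (mixed m' m hm0' hm2 h2' h2 h.symm).symm
  · rw [h3, h3'] at h
    have h4 : (1 / 2 + e γ) ≠ 0 := by linarith
    have h5 := mul_right_cancel₀ h4 (sub_right_injective h)
    have h6 : (2 - b γ) ≠ 0 := by linarith
    field_simp at h5
    linarith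

lemma sig_surj {s γ : ℝ} (h0 : 0 ≤ γ) (h1 : γ ≤ 1) (hs0 : 0 ≤ s) (hs4 : s ≤ 4)
    (hs : 1 - e γ ≤ |s - 5 / 2|) :
    ∃ m, 0 ≤ m ∧ m ≤ 2 ∧ (m ≤ a γ ∨ b γ ≤ m) ∧ sig m γ = s := by
  have he := e_nonneg γ
  have he1 := e_le γ
  have ha := a_pos h0
  have hb := b_lt h0 h1
  have hb' := b_ge γ
  have ha' := a_le h0
  have h3p := s3pos
  have h3l := s3lt
  rcases le_total s (5 / 2) with h | h
  · rw [abs_of_nonpos (by linarith)] at hs
    have hle : s ≤ 3 / 2 + e γ := by linarith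
    have hm : a γ * (s / (3 / 2 + e γ)) ≤ a γ := by
      have : s / (3 / 2 + e γ) ≤ 1 := (div_le_one (by linarith)).2 hle
      nlinarith
    refine ⟨a γ * (s / (3 / 2 + e γ)), by positivity, by linarith, Or.inl hm, ?_⟩
    rw [sig, if_pos (by linarith)]
    field_simp
  · rw [abs_of_nonneg (by linarith)] at hs
    have hge : 7 / 2 - e γ ≤ s := by linarith
    have h5 : (4 - s) / (1 / 2 + e γ) ≤ 1 := (div_le_one (by linarith)).2 (by linarith)
    have h6 : 0 ≤ (4 - s) / (1 / 2 + e γ) := div_nonneg (by linarith) (by linarith)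
    have hm : b γ ≤ 2 - (2 - b γ) * ((4 - s) / (1 / 2 + e γ)) := by nlinarith
    refine ⟨2 - (2 - b γ) * ((4 - s) / (1 / 2 + e γ)), by linarith, by nlinarith, Or.inr hm, ?_⟩
    rw [sig_eq_right h0 hm]
    have h7 : (2 - b γ) ≠ 0 := by linarith
    have h8 : (1 / 2 + e γ) ≠ 0 := by linarith
    have h9 : (2 - (2 - (2 - b γ) * ((4 - s) / (1 / 2 + e γ)))) / (2 - b γ) =
        (4 - s) / (1 / 2 + e γ) := by
      rw [sub_sub_cancel, mul_div_cancel_left₀ _ h7]
    rw [h9, div_mul_cancel₀ _ h8]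
    ring

end Pool.Agent.H745.Radial
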