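import Mathlib
import Pool.Agent.H745.Diamond
import Pool.Agent.H745.Radial
import Pool.Graph.R_pool_sql_team_seeded_63374d34.N492.Space
import Pool.Graph.R_pool_sql_team_seeded_63374d34.N492.Conn

/-!
# A piecewise linear model of the spaces `X k`
-/

set_option autoImplicit false

open Set Topology Filter

namespace Pool.Agent.H745.Model

open Pool.Agent.N492 Pool.Agent.H745.Diamond Pool.Agent.H745.Radial

/-- Euclidean five-space -/
abbrev E5 := EuclideanSpace ℝ (Fin 5)

/-- The piecewise linear model -/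
def S (k : ℕ) : Set E5 := {p | |p 2| + |p 3| = 1 ∧ |p 0| + |p 1| ≤ 1 ∧ 0 ≤ p 4 ∧ p 4 ≤ 3 ∧
  (p 4 = 0 ∨ |p 0| + |p 1| = 1) ∧
  ∀ ε ∈ ({1, -1} : Finset ℝ), ∀ ε' ∈ ({1, -1} : Finset ℝ), ∀ n ∈ Finset.Icc (-8 : ℤ) 8,
    0 ≤ ε * p 1 → 0 ≤ ε' * p 3 →
      1 ≤ |p 4 - 3 / 2| + 6 * |ε * (5 / 2) * (1 - p 0) + ε' * (k / 2) * (1 - p 2) - n|}

/-- polar parameters -/
def P (k : ℕ) : Set (ℝ × Circle × Circle) :=
  {q | 0 ≤ q.1 ∧ ((q.1 : ℂ) * (q.2.1 : ℂ), q.2.2) ∈ X k}

/-- the direction of `v` -/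
noncomputable def om (k : ℕ) (z u : Circle) : Circle := z ^ 5 * u ^ k

/-- the cosine parameter -/
noncomputable def ga (k : ℕ) (z u : Circle) : ℝ := |((om k z u : Circle) : ℂ).re|

lemma ga_nonneg (k : ℕ) (z u : Circle) : 0 ≤ ga k z u := abs_nonneg _

lemma ga_le (k : ℕ) (z u : Circle) : ga k z u ≤ 1 := abs_le.2 (re_mem _)

lemma continuous_ga (k : ℕ) : Continuous (fun q : ℝ × Circle × Circle => ga k q.2.1 q.2.2) := by
  unfold ga om
  exact (Complex.continuous_re.comp (by fun_prop)).abs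

lemma val_eq (k : ℕ) (r : ℝ) (z u : Circle) :
    val k ((r : ℂ) * (z : ℂ), u) = ((r ^ 5 : ℝ) : ℂ) * (om k z u : ℂ) := by
  simp only [val, om, Circle.coe_mul, Circle.coe_pow]
  push_cast
  ring

lemma mem_P_iff {k : ℕ} {r : ℝ} {z u : Circle} : (r, z, u) ∈ P k ↔
    0 ≤ r ∧ r ^ 5 ≤ 2 ∧ (r ^ 5 ≤ a (ga k z u) ∨ b (ga k z u) ≤ r ^ 5) := by
  constructor
  · rintro ⟨h0, h⟩
    refine ⟨h0, ?_⟩
    have hm : 0 ≤ r ^ 5 := by positivity
    change val k ((r : ℂ) * (z : ℂ), u) ∈ B at h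
    rw [val_eq, mem_B_iff, norm_mul, Circle.norm_coe, mul_one, Complex.norm_real,
      Real.norm_of_nonneg hm, Complex.re_ofReal_mul, abs_mul, abs_of_nonneg hm] at h
    exact ⟨h.1, (key_iff (ga_nonneg k z u) hm).1 h.2⟩
  · rintro ⟨h0, h1, h2⟩
    refine ⟨h0, ?_⟩
    have hm : 0 ≤ r ^ 5 := by positivity
    change val k ((r : ℂ) * (z : ℂ), u) ∈ B
    rw [val_eq, mem_B_iff, norm_mul, Circle.norm_coe, mul_one, Complex.norm_real,
      Real.norm_of_nonneg hm, Complex.re_ofReal_mul, abs_mul, abs_of_nonneg hm]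
    exact ⟨h1, (key_iff (ga_nonneg k z u) hm).2 h2⟩

lemma isCompact_P (k : ℕ) : IsCompact (P k) := by
  have h1 : IsCompact ((Icc (0 : ℝ) 2) ×ˢ (univ : Set (Circle × Circle))) :=
    isCompact_Icc.prod isCompact_univ
  refine h1.of_isClosed_subset ?_ ?_
  · apply IsClosed.inter
    · exact isClosed_le continuous_const continuous_fst
    · exact (isClosed_X k).preimage (by fun_prop)
  · rintro ⟨r, z, u⟩ hq
    rw [mem_P_iff] at hq
    refine ⟨⟨hq.1, ?_⟩, mem_univ _⟩
    change r ≤ 2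
    by_contra hlt
    push Not at hlt
    have : (2 : ℝ) ^ 5 < r ^ 5 := pow_lt_pow_left₀ hlt (by norm_num) (by norm_num)
    linarith [hq.2.1]

/-- the radial coordinate -/
noncomputable def si (k : ℕ) (q : ℝ × Circle × Circle) : ℝ := sig (q.1 ^ 5) (ga k q.2.1 q.2.2)

lemma continuous_si (k : ℕ) : Continuous (fun q : P k => si k q) := by
  unfold si sig
  have hg : Continuous (fun q : P k => ga k q.1.2.1 q.1.2.2) :=
    (continuous_ga k).comp continuous_subtype_val
  have hr : Continuous (fun q : P k => q.1.1 ^ 5) := by fun_prop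
  have ha : Continuous (fun q : P k => a (ga k q.1.2.1 q.1.2.2)) := continuous_a.comp hg
  have hb : Continuous (fun q : P k => b (ga k q.1.2.1 q.1.2.2)) := continuous_b.comp hg
  have he : Continuous (fun q : P k => e (ga k q.1.2.1 q.1.2.2)) := continuous_e.comp hg
  apply Continuous.if_le _ _ hr continuous_const
  · rintro ⟨⟨r, z, u⟩, hq⟩ hm
    have hq' := mem_P_iff.1 hq
    exact agree (ga_nonneg k z u) hq'.2.2 hm
  · refine (hr.div ha fun q => ?_).mul (continuous_const.add he)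
    exact (a_pos (ga_nonneg _ _ _)).ne'
  · refine continuous_const.sub (((continuous_const.sub hr).div (continuous_const.sub hb)
      fun q => ?_).mul (continuous_const.add he))
    exact (sub_pos.2 (b_lt (ga_nonneg k q.1.2.1 q.1.2.2) (ga_le k q.1.2.1 q.1.2.2))).ne'

/-- the first map -/
def f (k : ℕ) (q : P k) : X k := ⟨((q.1.1 : ℂ) * (q.1.2.1 : ℂ), q.1.2.2), q.2.2⟩

/-- the second map, into Euclidean space -/
noncomputable def g0 (k : ℕ) (q : ℝ × Circle × Circle) : E5 :=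
  !₂[min 1 (si k q) * A0 q.2.1, min 1 (si k q) * A1 q.2.1, A0 q.2.2, A1 q.2.2, max 0 (si k q - 1)]

lemma continuous_f (k : ℕ) : Continuous (f k) := by
  unfold f
  fun_prop

lemma continuous_g0 (k : ℕ) : Continuous (fun q : P k => g0 k q) := by
  have h := continuous_si k
  have h0 : Continuous (fun q : P k => A0 q.1.2.1) := continuous_A0.comp (by fun_prop)
  have h1 : Continuous (fun q : P k => A1 q.1.2.1) := continuous_A1.comp (by fun_prop)
  have h2 : Continuous (fun q : P k => A0 q.1.2.2) := continuous_A0.comp (by fun_prop)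
  have h3 : Continuous (fun q : P k => A1 q.1.2.2) := continuous_A1.comp (by fun_prop)
  unfold g0
  refine (PiLp.continuous_toLp 2 _).comp (continuous_pi fun i => ?_)
  fin_cases i
  · exact (continuous_const.min h).mul h0
  · exact (continuous_const.min h).mul h1
  · exact h2
  · exact h3
  · exact continuous_const.max (h.sub continuous_const)

lemma surj_f (k : ℕ) : Function.Surjective (f k) := by
  rintro ⟨⟨w, u⟩, hw⟩
  obtain ⟨z, hz⟩ : ∃ z : Circle, w = ((‖w‖ : ℝ) : ℂ) * (z : ℂ) := by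
    by_cases h0 : w = 0
    · exact ⟨1, by simp [h0]⟩
    · have hn : ((‖w‖ : ℝ) : ℂ) ≠ 0 := by exact_mod_cast norm_ne_zero_iff.2 h0
      have hmem : w / ((‖w‖ : ℝ) : ℂ) ∈ Submonoid.unitSphere ℂ :=
        mem_sphere_zero_iff_norm.2 (by
          rw [norm_div, Complex.norm_real, norm_norm, div_self (norm_ne_zero_iff.2 h0)])
      refine ⟨⟨w / ((‖w‖ : ℝ) : ℂ), hmem⟩, ?_⟩
      change w = ((‖w‖ : ℝ) : ℂ) * (w / ((‖w‖ : ℝ) : ℂ))
      field_simp
  refine ⟨⟨(‖w‖, z, u), norm_nonneg _, ?_⟩, ?_⟩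
  · rw [← hz]; exact hw
  · apply Subtype.ext
    change (((‖w‖ : ℝ) : ℂ) * (z : ℂ), u) = (w, u)
    rw [← hz]

/-- the direction in terms of angles -/
lemma ga_eq (k : ℕ) {z u : Circle} {ε ε' : ℝ} (hε : ε = 1 ∨ ε = -1) (hε' : ε' = 1 ∨ ε' = -1)
    (h : 0 ≤ ε * A1 z) (h' : 0 ≤ ε' * A1 u) : ∃ θ : ℝ, ga k z u = |Real.cos (2 * Real.pi * θ)| ∧
      2 * θ = ε * (5 / 2) * (1 - A0 z) + ε' * (k / 2) * (1 - A0 u) := by
  refine ⟨5 * (ε * (1 - A0 z) / 4) + k * (ε' * (1 - A0 u) / 4), ?_, by ring⟩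
  have h1 : om k z u = Circle.exp (2 * Real.pi * (5 * (ε * (1 - A0 z) / 4) +
      k * (ε' * (1 - A0 u) / 4))) := by
    have hz := A_exp z hε h
    have hu := A_exp u hε' h'
    calc om k z u = Circle.exp (2 * Real.pi * (ε * (1 - A0 z) / 4)) ^ 5 *
        Circle.exp (2 * Real.pi * (ε' * (1 - A0 u) / 4)) ^ k := by rw [← hz, ← hu, om]
      _ = _ := by
        rw [← Circle.exp_nsmul, ← Circle.exp_nsmul, ← Circle.exp_add]
        congr 1
        simp only [nsmul_eq_mul]
        push_cast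
        ring
  rw [ga, h1, Circle.coe_exp, Complex.exp_ofReal_mul_I_re]

lemma e_le_of (k : ℕ) {z u : Circle} {ε ε' : ℝ} (hε : ε = 1 ∨ ε = -1) (hε' : ε' = 1 ∨ ε' = -1)
    (h : 0 ≤ ε * A1 z) (h' : 0 ≤ ε' * A1 u) (n : ℤ) :
    e (ga k z u) ≤ 6 * |ε * (5 / 2) * (1 - A0 z) + ε' * (k / 2) * (1 - A0 u) - n| := by
  obtain ⟨θ, h1, h2⟩ := ga_eq k hε hε' h h'
  rw [← h2, h1]
  refine (min_le_right _ _).trans ?_
  have := K1 θ n
  have hpi := Real.pi_pos
  rw [div_mul_eq_mul_div, div_le_iff₀ hpi]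
  nlinarith

lemma A0_mem (z : Circle) : |A0 z| ≤ 1 := by
  have := A_sum z
  linarith [abs_nonneg (A1 z)]

lemma exists_n {k : ℕ} (hk : k ≤ 2) {z u : Circle} {ε ε' : ℝ} (hε : ε = 1 ∨ ε = -1)
    (hε' : ε' = 1 ∨ ε' = -1) (h : 0 ≤ ε * A1 z) (h' : 0 ≤ ε' * A1 u) :
    ∃ n ∈ Finset.Icc (-8 : ℤ) 8,
      e (ga k z u) = min 1 (6 * |ε * (5 / 2) * (1 - A0 z) + ε' * (k / 2) * (1 - A0 u) - n|) := by
  obtain ⟨θ, h1, h2⟩ := ga_eq k hε hε' h h'
  refine ⟨round (2 * θ), ?_, ?_⟩
  · have h3 := abs_sub_round (2 * θ)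
    have hA := abs_le.1 (A0_mem z)
    have hA' := abs_le.1 (A0_mem u)
    have hk' : (k : ℝ) ≤ 2 := by exact_mod_cast hk
    have hk0 : (0 : ℝ) ≤ k := by positivity
    have h4 : |2 * θ| ≤ 7 := by
      rw [h2]
      refine (abs_add_le _ _).trans ?_
      have h5 : |ε * (5 / 2) * (1 - A0 z)| ≤ 5 := by
        rw [abs_mul, abs_mul, abs_of_nonneg (by linarith : (0:ℝ) ≤ 1 - A0 z)]
        have : |ε| = 1 := by rcases hε with rfl | rfl <;> simp
        rw [this, abs_of_pos (by norm_num : (0:ℝ) < 5 / 2)]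
        linarith
      have h6 : |ε' * (k / 2) * (1 - A0 u)| ≤ 2 := by
        rw [abs_mul, abs_mul, abs_of_nonneg (by linarith : (0:ℝ) ≤ 1 - A0 u)]
        have : |ε'| = 1 := by rcases hε' with rfl | rfl <;> simp
        rw [this, abs_of_nonneg (by positivity : (0:ℝ) ≤ k / 2)]
        nlinarith
      linarith
    have h7 := abs_le.1 h3
    have h8 := abs_le.1 h4
    rw [Finset.mem_Icc]
    constructor
    · have : (-8 : ℝ) ≤ (round (2 * θ) : ℝ) := by linarith
      exact_mod_cast this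
    · have : (round (2 * θ) : ℝ) ≤ 8 := by linarith
      exact_mod_cast this
  · rw [← h2, h1, e, K2]
    congr 1
    have hpi := Real.pi_pos
    field_simp

/-- `g0` maps into the model -/
lemma g0_mem {k : ℕ} {q : ℝ × Circle × Circle} (hq : q ∈ P k) : g0 k q ∈ S k := by
  obtain ⟨r, z, u⟩ := q
  have hq' := mem_P_iff.1 hq
  have hm : 0 ≤ r ^ 5 := pow_nonneg hq'.1 5
  obtain ⟨h1, h2, h3, h4⟩ := sig_bounds (ga_nonneg k z u) (ga_le k z u) hm hq'.2.1 hq'.2.2
  have hmin : 0 ≤ min 1 (si k (r, z, u)) := le_min zero_le_one h1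
  have hsum : |min 1 (si k (r, z, u)) * A0 z| + |min 1 (si k (r, z, u)) * A1 z| =
      min 1 (si k (r, z, u)) := by
    rw [abs_mul, abs_mul, abs_of_nonneg hmin, ← mul_add, A_sum, mul_one]
  refine ⟨A_sum u, ?_, ?_, ?_, ?_, ?_⟩
  · change |min 1 (si k (r, z, u)) * A0 z| + |min 1 (si k (r, z, u)) * A1 z| ≤ 1
    rw [hsum]
    exact min_le_left _ _
  · exact le_max_left _ _
  · change max 0 (si k (r, z, u) - 1) ≤ 3
    apply max_le (by norm_num)
    have : si k (r, z, u) ≤ 4 := h2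
    linarith
  · change max 0 (si k (r, z, u) - 1) = 0 ∨
      |min 1 (si k (r, z, u)) * A0 z| + |min 1 (si k (r, z, u)) * A1 z| = 1
    rw [hsum]
    rcases le_total (si k (r, z, u)) 1 with h | h
    · left
      exact max_eq_left (by linarith)
    · right
      exact min_eq_left h
  · intro ε hε ε' hε' n _ hp1 hp3
    change 0 ≤ ε * (min 1 (si k (r, z, u)) * A1 z) at hp1
    change 0 ≤ ε' * A1 u at hp3
    change 1 ≤ |max 0 (si k (r, z, u) - 1) - 3 / 2| + 6 * |ε * (5 / 2) *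
      (1 - min 1 (si k (r, z, u)) * A0 z) + ε' * (k / 2) * (1 - A0 u) - n|
    rcases le_or_gt (si k (r, z, u)) 1 with h | h
    · rw [max_eq_left (by linarith)]
      have : |(0 : ℝ) - 3 / 2| = 3 / 2 := by rw [zero_sub, abs_neg]; norm_num
      rw [this]
      have := abs_nonneg (ε * (5 / 2) *
        (1 - min 1 (si k (r, z, u)) * A0 z) + ε' * (k / 2) * (1 - A0 u) - n)
      linarith
    · rw [min_eq_left h.le, one_mul] at hp1
      rw [min_eq_left h.le, one_mul, max_eq_right (by linarith)]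
      have hε2 : ε = 1 ∨ ε = -1 := by simpa using hε
      have hε2' : ε' = 1 ∨ ε' = -1 := by simpa using hε'
      have h5 := e_le_of k hε2 hε2' hp1 hp3 n
      have h6 : si k (r, z, u) - 1 - 3 / 2 = sig (r ^ 5) (ga k z u) - 5 / 2 := by
        rw [si]; ring
      rw [h6]
      linarith

/-- `g0` is onto the model -/
lemma g0_surj {k : ℕ} (hk : k ≤ 2) {p : E5} (hp : p ∈ S k) : ∃ q ∈ P k, g0 k q = p := by
  obtain ⟨h1, h2, h3, h4, h5, h6⟩ := hp
  obtain ⟨u, hu0, hu1⟩ := A_surj h1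
  have key : ∀ q : ℝ × Circle × Circle, min 1 (si k q) * A0 q.2.1 = p 0 →
      min 1 (si k q) * A1 q.2.1 = p 1 → A0 q.2.2 = p 2 → A1 q.2.2 = p 3 →
      max 0 (si k q - 1) = p 4 → g0 k q = p := by
    intro q e0 e1 e2 e3 e4
    ext i
    fin_cases i
    · exact e0
    · exact e1
    · exact e2
    · exact e3
    · exact e4
  set s0 : ℝ := |p 0| + |p 1| with hs0
  have hs0n : 0 ≤ s0 := by positivity
  rcases hs0n.eq_or_lt with h0 | h0
  · -- the core circle
    have hp0 : p 0 = 0 := by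
      have : |p 0| = 0 := by linarith [abs_nonneg (p 0), abs_nonneg (p 1)]
      exact abs_eq_zero.1 this
    have hp1 : p 1 = 0 := by
      have : |p 1| = 0 := by linarith [abs_nonneg (p 0), abs_nonneg (p 1)]
      exact abs_eq_zero.1 this
    have hp4 : p 4 = 0 := by
      rcases h5 with h | h
      · exact h
      · linarith
    have hsi : si k (0, 1, u) = 0 := by
      rw [si]
      simp only [ne_eq, OfNat.ofNat_ne_zero, not_false_eq_true, zero_pow]
      exact sig_zero _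
    refine ⟨(0, 1, u), ?_, key _ ?_ ?_ hu0 hu1 ?_⟩
    · rw [mem_P_iff]
      refine ⟨le_rfl, by norm_num, Or.inl ?_⟩
      have := a_pos (ga_nonneg k 1 u)
      simpa using this.le
    · rw [hsi, hp0]; simp
    · rw [hsi, hp1]; simp
    · rw [hsi, hp4]; simp
  · obtain ⟨z, hz0, hz1⟩ := A_surj (a := p 0 / s0) (b := p 1 / s0) (by
      rw [abs_div, abs_div, abs_of_pos h0, ← add_div, ← hs0, div_self h0.ne'])
    -- the target radial coordinate
    have htar : 1 - e (ga k z u) ≤ |(s0 + p 4) - 5 / 2| := by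
      have he := e_nonneg (ga k z u)
      rcases h5 with h | h
      · rw [h, abs_of_nonpos (by linarith)]
        linarith
      · obtain ⟨ε, hε, hεp⟩ : ∃ ε : ℝ, (ε = 1 ∨ ε = -1) ∧ 0 ≤ ε * p 1 := by
          rcases le_total 0 (p 1) with h | h
          · exact ⟨1, Or.inl rfl, by linarith⟩
          · exact ⟨-1, Or.inr rfl, by linarith⟩
        obtain ⟨ε', hε', hεp'⟩ : ∃ ε : ℝ, (ε = 1 ∨ ε = -1) ∧ 0 ≤ ε * p 3 := by
          rcases le_total 0 (p 3) with h | h
          · exact ⟨1, Or.inl rfl, by linarith⟩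
          · exact ⟨-1, Or.inr rfl, by linarith⟩
        rw [h, div_one] at hz0 hz1
        obtain ⟨n, hn, hen⟩ := exists_n (k := k) hk (z := z) (u := u) hε hε'
          (by rw [hz1]; exact hεp) (by rw [hu1]; exact hεp')
        have h7 := h6 ε (by simpa using hε) ε' (by simpa using hε') n hn hεp hεp'
        rw [hz0, hu0] at hen
        have h8 : s0 + p 4 - 5 / 2 = p 4 - 3 / 2 := by rw [h]; ring
        rw [h8, hen]
        rcases min_choice 1 (6 * |ε * (5 / 2) * (1 - p 0) + ε' * (k / 2) * (1 - p 2) - n|)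
          with h9 | h9
        · rw [h9]
          linarith [abs_nonneg (p 4 - 3 / 2)]
        · rw [h9]
          linarith
    obtain ⟨m, hm0, hm2, hmB, hms⟩ := sig_surj (s := s0 + p 4) (ga_nonneg k z u) (ga_le k z u)
      (by linarith) (by linarith) htar
    have hr5 : (m ^ ((5 : ℕ) : ℝ)⁻¹) ^ 5 = m := Real.rpow_inv_natCast_pow hm0 (by norm_num)
    have hsi : si k (m ^ ((5 : ℕ) : ℝ)⁻¹, z, u) = s0 + p 4 := by
      rw [si]
      simp only [hr5]
      exact hms
    have hmin : min 1 (s0 + p 4) = s0 := by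
      rcases h5 with h | h
      · rw [h, add_zero, min_eq_right h2]
      · rw [min_eq_left (by linarith), h]
    have hmax : max 0 (s0 + p 4 - 1) = p 4 := by
      rcases h5 with h | h
      · rw [h, max_eq_left (by linarith)]
      · rw [max_eq_right (by linarith)]
        linarith
    refine ⟨(m ^ ((5 : ℕ) : ℝ)⁻¹, z, u), ?_, key _ ?_ ?_ hu0 hu1 ?_⟩
    · rw [mem_P_iff, hr5]
      exact ⟨Real.rpow_nonneg hm0 _, hm2, hmB⟩
    · rw [hsi, hmin]
      simp only [hz0]
      field_simp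
    · rw [hsi, hmin]
      simp only [hz1]
      field_simp
    · rw [hsi, hmax]

/-- the two maps have the same fibres -/
lemma same_fibres {k : ℕ} (q q' : P k) : f k q = f k q' ↔ g0 k q = g0 k q' := by
  obtain ⟨⟨r, z, u⟩, hq⟩ := q
  obtain ⟨⟨r', z', u'⟩, hq'⟩ := q'
  have hP := mem_P_iff.1 hq
  have hP' := mem_P_iff.1 hq'
  have hm : 0 ≤ r ^ 5 := pow_nonneg hP.1 5
  have hm' : 0 ≤ r' ^ 5 := pow_nonneg hP'.1 5
  obtain ⟨h1, h2, h3, h4⟩ := sig_bounds (ga_nonneg k z u) (ga_le k z u) hm hP.2.1 hP.2.2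
  obtain ⟨h1', h2', h3', h4'⟩ :=
    sig_bounds (ga_nonneg k z' u') (ga_le k z' u') hm' hP'.2.1 hP'.2.2
  constructor
  · intro h
    have hh := Subtype.ext_iff.1 h
    change ((r : ℂ) * (z : ℂ), u) = ((r' : ℂ) * (z' : ℂ), u') at hh
    rw [Prod.mk.injEq] at hh
    obtain ⟨hw, rfl⟩ := hh
    have hrr : r = r' := by
      have := congrArg norm hw
      rw [norm_mul, norm_mul, Circle.norm_coe, Circle.norm_coe, mul_one, mul_one,
        Complex.norm_real, Complex.norm_real, Real.norm_of_nonneg hP.1,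
        Real.norm_of_nonneg hP'.1] at this
      exact this
    subst hrr
    by_cases hr : r = 0
    · have e1 : si k (r, z, u) = 0 := by
        rw [si, hr]
        simp only [ne_eq, OfNat.ofNat_ne_zero, not_false_eq_true, zero_pow]
        exact sig_zero _
      have e2 : si k (r, z', u) = 0 := by
        rw [si, hr]
        simp only [ne_eq, OfNat.ofNat_ne_zero, not_false_eq_true, zero_pow]
        exact sig_zero _
      simp only [g0, e1, e2]
      simp
    · have hzz : z = z' := by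
        apply Subtype.ext
        have hrc : (r : ℂ) ≠ 0 := by exact_mod_cast hr
        exact mul_left_cancel₀ hrc hw
      subst hzz
      rfl
  · intro h
    have c : ∀ i, g0 k (r, z, u) i = g0 k (r', z', u') i := fun i => by
      change g0 k (r, z, u) = g0 k (r', z', u') at h
      rw [h]
    have c0 : min 1 (si k (r, z, u)) * A0 z = min 1 (si k (r', z', u')) * A0 z' := c 0
    have c1 : min 1 (si k (r, z, u)) * A1 z = min 1 (si k (r', z', u')) * A1 z' := c 1
    have c2 : A0 u = A0 u' := c 2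
    have c3 : A1 u = A1 u' := c 3
    have c4 : max 0 (si k (r, z, u) - 1) = max 0 (si k (r', z', u') - 1) := c 4
    have huu : u = u' := A_inj c2 c3
    subst huu
    have s1 : 0 ≤ si k (r, z, u) := h1
    have s1' : 0 ≤ si k (r', z', u) := h1'
    have hmin : 0 ≤ min 1 (si k (r, z, u)) := le_min zero_le_one s1
    have hmin' : 0 ≤ min 1 (si k (r', z', u)) := le_min zero_le_one s1'
    have hsum : min 1 (si k (r, z, u)) = min 1 (si k (r', z', u)) := by
      have e1 : |min 1 (si k (r, z, u)) * A0 z| + |min 1 (si k (r, z, u)) * A1 z| =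
          min 1 (si k (r, z, u)) := by
        rw [abs_mul, abs_mul, abs_of_nonneg hmin, ← mul_add, A_sum, mul_one]
      have e2 : |min 1 (si k (r', z', u)) * A0 z'| + |min 1 (si k (r', z', u)) * A1 z'| =
          min 1 (si k (r', z', u)) := by
        rw [abs_mul, abs_mul, abs_of_nonneg hmin', ← mul_add, A_sum, mul_one]
      rw [← e1, ← e2, c0, c1]
    have hdec : ∀ s : ℝ, s = min 1 s + max 0 (s - 1) := by
      intro s
      rcases le_total s 1 with h | h
      · rw [min_eq_right h, max_eq_left (by linarith), add_zero]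
      · rw [min_eq_left h, max_eq_right (by linarith)]; ring
    have hsi : si k (r, z, u) = si k (r', z', u) := by
      rw [hdec (si k (r, z, u)), hdec (si k (r', z', u)), hsum, c4]
    apply Subtype.ext
    change ((r : ℂ) * (z : ℂ), u) = ((r' : ℂ) * (z' : ℂ), u)
    rcases s1.eq_or_lt with h0 | h0
    · have hr : r = 0 := by
        have : r ^ 5 = 0 := h4 h0.symm
        simpa using this
      have hr' : r' = 0 := by
        have : r' ^ 5 = 0 := h4' (by
          change si k (r', z', u) = 0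
          rw [← hsi, ← h0])
        simpa using this
      rw [hr, hr']
      simp
    · have hpos : min 1 (si k (r, z, u)) ≠ 0 := (lt_min one_pos h0).ne'
      rw [← hsum] at c0 c1
      have hzz : z = z' := A_inj (mul_left_cancel₀ hpos c0) (mul_left_cancel₀ hpos c1)
      subst hzz
      have hmm : r ^ 5 = r' ^ 5 :=
        sig_inj (ga_nonneg k z u) (ga_le k z u) hm hP.2.1 hP.2.2 hm' hP'.2.1 hP'.2.2 hsi
      have hrr : r = r' := (pow_left_inj₀ hP.1 hP'.1 (by norm_num)).1 hmm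
      rw [hrr]

/-- two quotients of a compact space with the same fibres are homeomorphic -/
lemma homeo_of_quot {Q X Y : Type*} [TopologicalSpace Q] [TopologicalSpace X] [TopologicalSpace Y]
    [CompactSpace Q] [T2Space X] [T2Space Y] {f : Q → X} {g : Q → Y} (hf : Continuous f)
    (hg : Continuous g) (sf : Function.Surjective f) (sg : Function.Surjective g)
    (h : ∀ p q, f p = f q ↔ g p = g q) : Nonempty (X ≃ₜ Y) := by
  have qf : IsQuotientMap (⟨f, hf⟩ : C(Q, X)) := hf.isClosedMap.isQuotientMap hf sf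
  have qg : IsQuotientMap (⟨g, hg⟩ : C(Q, Y)) := hg.isClosedMap.isQuotientMap hg sg
  have e1 := qf.homeomorph
  have e2 := qg.homeomorph
  have hk : Setoid.ker (⟨f, hf⟩ : C(Q, X)) = Setoid.ker (⟨g, hg⟩ : C(Q, Y)) := Setoid.ext h
  rw [hk] at e1
  exact ⟨e1.symm.trans e2⟩

theorem homeo_X_S {k : ℕ} (hk : k ≤ 2) : Nonempty (X k ≃ₜ S k) := by
  have : CompactSpace (P k) := isCompact_iff_compactSpace.1 (isCompact_P k)
  refine homeo_of_quot (f := f k) (g := fun q : P k => (⟨g0 k q, g0_mem q.2⟩ : S k))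
    (continuous_f k) ((continuous_g0 k).subtype_mk _) (surj_f k) ?_ ?_
  · rintro ⟨p, hp⟩
    obtain ⟨q, hq, hqp⟩ := g0_surj hk hp
    exact ⟨⟨q, hq⟩, Subtype.ext hqp⟩
  · intro q q'
    rw [same_fibres, Subtype.mk.injEq]

theorem isCompact_S {k : ℕ} (hk : k ≤ 2) : IsCompact (S k) := by
  have : CompactSpace (P k) := isCompact_iff_compactSpace.1 (isCompact_P k)
  have hS : S k = range (fun q : P k => g0 k q) := by
    ext p
    constructor
    · intro hp
      obtain ⟨q, hq, hqp⟩ := g0_surj hk hp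
      exact ⟨⟨q, hq⟩, hqp⟩
    · rintro ⟨q, rfl⟩
      exact g0_mem q.2
  rw [hS]
  exact isCompact_range (continuous_g0 k)

end Pool.Agent.H745.Model
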