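import Mathlib

/-!
# Triangulation of compact semilinear sets

`S` is semilinear if membership depends only on the signs of finitely many affine functionals.
A closed bounded semilinear set is the underlying space of a finite simplicial complex.
-/

set_option autoImplicit false

open Set Topology Filter

namespace Pool.Agent.H745.Triang

variable {E : Type*} [NormedAddCommGroup E] [NormedSpace ℝ E] {ι : Type*}

/-- value of the `i`-th affine functional at `x` -/
def ev (l : ι → E →ₗ[ℝ] ℝ) (c : ι → ℝ) (x : E) (i : ι) : ℝ := l i x + c i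

/-- the sign vector of `x` -/
noncomputable def sg (l : ι → E →ₗ[ℝ] ℝ) (c : ι → ℝ) (x : E) : ι → SignType :=
  fun i => SignType.sign (ev l c x i)

/-- `x` lies in the closure of the cell of `y` -/
def R (l : ι → E →ₗ[ℝ] ℝ) (c : ι → ℝ) (x y : E) : Prop :=
  ∀ i, ev l c x i = 0 ∨ sg l c x i = sg l c y i

variable {l : ι → E →ₗ[ℝ] ℝ} {c : ι → ℝ}

lemma ev_sum (V : Finset E) (a : E → ℝ) (i : ι) :
    ∑ v ∈ V, a v * ev l c v i = l i (∑ v ∈ V, a v • v) + c i * ∑ v ∈ V, a v := by
  simp only [ev, map_sum, map_smul, smul_eq_mul, Finset.mul_sum, ← Finset.sum_add_distrib]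
  exact Finset.sum_congr rfl fun v _ => by ring

lemma ev_comb (x y : E) (a b : ℝ) (hab : a + b = 1) (i : ι) :
    ev l c (a • x + b • y) i = a * ev l c x i + b * ev l c y i := by
  simp only [ev, map_add, map_smul, smul_eq_mul]
  linear_combination (-(c i)) * hab

lemma sg_zero {x : E} {i : ι} : sg l c x i = 0 ↔ ev l c x i = 0 := by
  simp [sg, sign_eq_zero_iff]

lemma R_refl (x : E) : R l c x x := fun _ => Or.inr rfl

lemma R_trans {x y z : E} (h : R l c x y) (h' : R l c y z) : R l c x z := by
  intro i
  rcases h i with h1 | h1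
  · exact Or.inl h1
  rcases h' i with h2 | h2
  · left
    exact sg_zero.1 (h1.trans (sg_zero.2 h2))
  · exact Or.inr (h1.trans h2)

lemma R_of_sg_eq {x y : E} (h : sg l c x = sg l c y) : R l c x y := fun i => Or.inr (congrFun h i)

lemma sign_sum (V : Finset E) (a : E → ℝ) (ha : ∀ v ∈ V, 0 ≤ a v) {t : E} (ht : t ∈ V)
    (hat : a t ≠ 0) (htop : ∀ v ∈ V, a v ≠ 0 → R l c v t) (i : ι) :
    SignType.sign (∑ v ∈ V, a v * ev l c v i) = sg l c t i := by
  have hpos : 0 < a t := lt_of_le_of_ne (ha t ht) (Ne.symm hat)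
  rcases lt_trichotomy (ev l c t i) 0 with h | h | h
  · have h1 : sg l c t i = -1 := sign_neg h
    rw [h1]
    apply sign_neg
    have : 0 < ∑ v ∈ V, -(a v * ev l c v i) := by
      apply Finset.sum_pos'
      · intro v hv
        by_cases h0 : a v = 0
        · simp [h0]
        · rcases htop v hv h0 i with h2 | h2
          · simp [h2]
          · rw [h1] at h2
            have h3 : ev l c v i < 0 := sign_eq_neg_one_iff.1 h2
            nlinarith [ha v hv]
      · exact ⟨t, ht, by nlinarith⟩
    rw [Finset.sum_neg_distrib] at this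
    linarith
  · have h1 : sg l c t i = 0 := sg_zero.2 h
    rw [h1, sign_eq_zero_iff]
    apply Finset.sum_eq_zero
    intro v hv
    by_cases h0 : a v = 0
    · simp [h0]
    · rcases htop v hv h0 i with h2 | h2
      · simp [h2]
      · rw [h1] at h2
        rw [sg_zero.1 h2, mul_zero]
  · have h1 : sg l c t i = 1 := sign_pos h
    rw [h1]
    apply sign_pos
    apply Finset.sum_pos'
    · intro v hv
      by_cases h0 : a v = 0
      · simp [h0]
      · rcases htop v hv h0 i with h2 | h2
        · simp [h2]
        · rw [h1] at h2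
          have h3 : 0 < ev l c v i := sign_eq_one_iff.1 h2
          exact mul_nonneg (ha v hv) h3.le
    · exact ⟨t, ht, mul_pos hpos h⟩

/-- a nonempty finite chain has a top element -/
lemma exists_top [Finite ι] (s : Finset E) (hs : s.Nonempty) (hc : IsChain (R l c) (s : Set E)) :
    ∃ t ∈ s, ∀ v ∈ s, R l c v t := by
  classical
  obtain ⟨t, ht, hmax⟩ := Finset.exists_max_image s
    (fun v => Set.ncard {i | ev l c v i ≠ 0}) hs
  refine ⟨t, ht, fun v hv => ?_⟩
  by_cases hvt : v = t
  · rw [hvt]; exact R_refl t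
  rcases hc hv ht hvt with h | h
  · exact h
  · -- `R t v`, and `t` has the maximal number of nonzero signs
    have hsub : {i | ev l c t i ≠ 0} ⊆ {i | ev l c v i ≠ 0} := by
      intro i hi
      rcases h i with h1 | h1
      · exact absurd h1 hi
      · intro h2
        exact hi (sg_zero.1 (h1.trans (sg_zero.2 h2)))
    have heq := Set.eq_of_subset_of_ncard_le hsub (hmax v hv) (Set.toFinite _)
    intro i
    by_cases hi : ev l c v i = 0
    · exact Or.inl hi
    · right
      have hi' : i ∈ {i | ev l c t i ≠ 0} := by rw [heq]; exact hi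
      rcases h i with h1 | h1
      · exact absurd h1 hi'
      · exact h1.symm

/-- In two equal nonnegative combinations along chains the top elements coincide. -/
lemma top_mem [Finite ι] (V : Finset E)
    (hinj : ∀ v ∈ V, ∀ w ∈ V, sg l c v = sg l c w → v = w)
    (a b : E → ℝ) (ha : ∀ v ∈ V, 0 ≤ a v) (hb : ∀ v ∈ V, 0 ≤ b v)
    (hcb : IsChain (R l c) {v | v ∈ V ∧ b v ≠ 0})
    (h1 : ∑ v ∈ V, a v • v = ∑ v ∈ V, b v • v) (h2 : ∑ v ∈ V, a v = ∑ v ∈ V, b v)
    {t : E} (ht : t ∈ V) (hat : a t ≠ 0) (htop : ∀ v ∈ V, a v ≠ 0 → R l c v t) : b t ≠ 0 := by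
  classical
  have hpos : 0 < ∑ v ∈ V, a v :=
    Finset.sum_pos' ha ⟨t, ht, lt_of_le_of_ne (ha t ht) (Ne.symm hat)⟩
  have hne : (V.filter fun v => b v ≠ 0).Nonempty := by
    by_contra hne
    rw [Finset.not_nonempty_iff_eq_empty, Finset.filter_eq_empty_iff] at hne
    rw [h2, Finset.sum_eq_zero (fun v hv => not_not.1 (hne hv))] at hpos
    exact lt_irrefl _ hpos
  obtain ⟨t', ht', htop'⟩ := exists_top (l := l) (c := c) (V.filter fun v => b v ≠ 0) hne
    (by simpa using hcb)
  rw [Finset.mem_filter] at ht'
  have hs : sg l c t = sg l c t' := by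
    funext i
    rw [← sign_sum V a ha ht hat htop i, ← sign_sum V b hb ht'.1 ht'.2
      (fun v hv hv0 => htop' v (Finset.mem_filter.2 ⟨hv, hv0⟩)) i, ev_sum, ev_sum, h1, h2]
  rw [hinj t ht t' ht'.1 hs]
  exact ht'.2

/-- Uniqueness of nonnegative combinations along chains. -/
lemma uniq [Finite ι] (V : Finset E)
    (hinj : ∀ v ∈ V, ∀ w ∈ V, sg l c v = sg l c w → v = w) (n : ℕ) :
    ∀ (a b : E → ℝ), (V.filter fun v => a v ≠ 0).card ≤ n → (∀ v ∈ V, 0 ≤ a v) →
    (∀ v ∈ V, 0 ≤ b v) → IsChain (R l c) {v | v ∈ V ∧ a v ≠ 0} →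
    IsChain (R l c) {v | v ∈ V ∧ b v ≠ 0} →
    ∑ v ∈ V, a v • v = ∑ v ∈ V, b v • v → ∑ v ∈ V, a v = ∑ v ∈ V, b v →
    ∀ v ∈ V, a v = b v := by
  classical
  induction n with
  | zero =>
    intro a b hcard ha hb _ _ _ h2
    have h0 : ∀ v ∈ V, a v = 0 := by
      intro v hv
      by_contra hv0
      have hne : (V.filter fun v => a v ≠ 0).Nonempty := ⟨v, Finset.mem_filter.2 ⟨hv, hv0⟩⟩
      have := Finset.card_pos.2 hne
      omega
    rw [Finset.sum_eq_zero h0] at h2
    have := (Finset.sum_eq_zero_iff_of_nonneg hb).1 h2.symm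
    intro v hv
    rw [h0 v hv, this v hv]
  | succ n ih =>
    intro a b hcard ha hb hca hcb h1 h2
    by_cases hne : (V.filter fun v => a v ≠ 0).Nonempty
    swap
    · rw [Finset.not_nonempty_iff_eq_empty, Finset.filter_eq_empty_iff] at hne
      have h0 : ∀ v ∈ V, a v = 0 := fun v hv => not_not.1 (hne hv)
      rw [Finset.sum_eq_zero h0] at h2
      have := (Finset.sum_eq_zero_iff_of_nonneg hb).1 h2.symm
      intro v hv
      rw [h0 v hv, this v hv]
    obtain ⟨t, ht, htop⟩ := exists_top (l := l) (c := c) (V.filter fun v => a v ≠ 0) hne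
      (by simpa using hca)
    rw [Finset.mem_filter] at ht
    obtain ⟨ht, hat⟩ := ht
    have htop' : ∀ v ∈ V, a v ≠ 0 → R l c v t :=
      fun v hv hv0 => htop v (Finset.mem_filter.2 ⟨hv, hv0⟩)
    have hbt : b t ≠ 0 := top_mem V hinj a b ha hb hcb h1 h2 ht hat htop'
    -- `t` is also top for `b`
    have htopb : ∀ v ∈ V, b v ≠ 0 → R l c v t := by
      have hneb : (V.filter fun v => b v ≠ 0).Nonempty := ⟨t, Finset.mem_filter.2 ⟨ht, hbt⟩⟩
      obtain ⟨t', ht', htb⟩ := exists_top (l := l) (c := c) (V.filter fun v => b v ≠ 0) hneb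
        (by simpa using hcb)
      rw [Finset.mem_filter] at ht'
      have htb' : ∀ v ∈ V, b v ≠ 0 → R l c v t' :=
        fun v hv hv0 => htb v (Finset.mem_filter.2 ⟨hv, hv0⟩)
      have h3 : a t' ≠ 0 := top_mem V hinj b a hb ha hca h1.symm h2.symm ht'.1 ht'.2 htb'
      intro v hv hv0
      exact R_trans (htb' v hv hv0) (htop' t' ht'.1 h3)
    -- subtract
    have key : ∀ (m : ℝ), m ≤ a t → m ≤ b t → 0 ≤ m →
        (∀ v ∈ V, 0 ≤ Function.update a t (a t - m) v) ∧
        (∀ v ∈ V, 0 ≤ Function.update b t (b t - m) v) ∧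
        IsChain (R l c) {v | v ∈ V ∧ Function.update a t (a t - m) v ≠ 0} ∧
        IsChain (R l c) {v | v ∈ V ∧ Function.update b t (b t - m) v ≠ 0} ∧
        ∑ v ∈ V, Function.update a t (a t - m) v • v =
          ∑ v ∈ V, Function.update b t (b t - m) v • v ∧
        ∑ v ∈ V, Function.update a t (a t - m) v = ∑ v ∈ V, Function.update b t (b t - m) v := by
      intro m hma hmb hm0
      have hsub : ∀ f : E → ℝ, f t ≠ 0 → {v | v ∈ V ∧ Function.update f t (f t - m) v ≠ 0} ⊆
          {v | v ∈ V ∧ f v ≠ 0} := by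
        rintro f hf v ⟨hv, hv0⟩
        refine ⟨hv, ?_⟩
        by_cases hvt : v = t
        · rw [hvt]; exact hf
        · rwa [Function.update_of_ne hvt] at hv0
      have hsum : ∀ f : E → ℝ, ∑ v ∈ V, Function.update f t (f t - m) v • v =
          ∑ v ∈ V, f v • v - m • t := by
        intro f
        rw [← Finset.add_sum_erase V _ ht, ← Finset.add_sum_erase V (fun v => f v • v) ht]
        have : ∑ x ∈ V.erase t, Function.update f t (f t - m) x • x = ∑ x ∈ V.erase t, f x • x :=
          Finset.sum_congr rfl fun v hv => by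
            rw [Function.update_of_ne (Finset.ne_of_mem_erase hv)]
        rw [this]
        simp only [Function.update_self, sub_smul]
        abel
      have hsum' : ∀ f : E → ℝ, ∑ v ∈ V, Function.update f t (f t - m) v =
          ∑ v ∈ V, f v - m := by
        intro f
        rw [← Finset.add_sum_erase V _ ht, ← Finset.add_sum_erase V f ht]
        have : ∑ x ∈ V.erase t, Function.update f t (f t - m) x = ∑ x ∈ V.erase t, f x :=
          Finset.sum_congr rfl fun v hv => by
            rw [Function.update_of_ne (Finset.ne_of_mem_erase hv)]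
        rw [this]
        simp only [Function.update_self]
        ring
      refine ⟨?_, ?_, hca.mono (hsub a hat), hcb.mono (hsub b hbt), ?_, ?_⟩
      · intro v hv
        by_cases hvt : v = t
        · rw [hvt, Function.update_self]; linarith
        · rw [Function.update_of_ne hvt]; exact ha v hv
      · intro v hv
        by_cases hvt : v = t
        · rw [hvt, Function.update_self]; linarith
        · rw [Function.update_of_ne hvt]; exact hb v hv
      · rw [hsum, hsum, h1]
      · rw [hsum', hsum', h2]
    have hapos : 0 ≤ a t := ha t ht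
    have hbpos : 0 ≤ b t := hb t ht
    have hab : a t = b t := by
      rcases le_total (a t) (b t) with hle | hle
      · obtain ⟨k1, k2, k3, k4, k5, k6⟩ := key (a t) le_rfl hle hapos
        by_contra hneq
        have h4 : Function.update b t (b t - a t) t ≠ 0 := by
          rw [Function.update_self]
          exact sub_ne_zero.2 (Ne.symm hneq)
        have := top_mem V hinj _ _ k2 k1 k3 k5.symm k6.symm ht h4 (by
          intro v hv hv0
          by_cases hvt : v = t
          · rw [hvt]; exact R_refl t
          · rw [Function.update_of_ne hvt] at hv0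
            exact htopb v hv hv0)
        exact this (by rw [Function.update_self]; ring)
      · obtain ⟨k1, k2, k3, k4, k5, k6⟩ := key (b t) hle le_rfl hbpos
        by_contra hneq
        have h4 : Function.update a t (a t - b t) t ≠ 0 := by
          rw [Function.update_self]
          exact sub_ne_zero.2 hneq
        have := top_mem V hinj _ _ k1 k2 k4 k5 k6 ht h4 (by
          intro v hv hv0
          by_cases hvt : v = t
          · rw [hvt]; exact R_refl t
          · rw [Function.update_of_ne hvt] at hv0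
            exact htop' v hv hv0)
        exact this (by rw [Function.update_self]; ring)
    obtain ⟨k1, k2, k3, k4, k5, k6⟩ := key (a t) le_rfl hab.le hapos
    have hcard' : (V.filter fun v => Function.update a t (a t - a t) v ≠ 0).card ≤ n := by
      have hss : (V.filter fun v => Function.update a t (a t - a t) v ≠ 0) ⊆
          (V.filter fun v => a v ≠ 0).erase t := by
        intro v hv
        rw [Finset.mem_filter] at hv
        rw [Finset.mem_erase, Finset.mem_filter]
        by_cases hvt : v = t
        · exfalso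
          apply hv.2
          rw [hvt, Function.update_self]; ring
        · have := hv.2
          rw [Function.update_of_ne hvt] at this
          exact ⟨hvt, hv.1, this⟩
      have h5 := Finset.card_le_card hss
      rw [Finset.card_erase_of_mem (Finset.mem_filter.2 ⟨ht, hat⟩)] at h5
      omega
    have := ih _ _ hcard' k1 k2 k3 k4 k5 k6
    intro v hv
    by_cases hvt : v = t
    · rw [hvt, hab]
    · have h6 := this v hv
      rwa [Function.update_of_ne hvt, Function.update_of_ne hvt] at h6

/-- semilinearity of `S` with respect to the family `l, c` -/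
def SL (l : ι → E →ₗ[ℝ] ℝ) (c : ι → ℝ) (S : Set E) : Prop :=
  ∀ x y, sg l c x = sg l c y → x ∈ S → y ∈ S

lemma sg_eq_iff {x y : E} {i : ι} {m : ℝ} (hm : 0 < m) (h : ev l c x i = m * ev l c y i) :
    sg l c x i = sg l c y i := by
  simp only [sg, h]
  rw [sign_mul, sign_pos hm, one_mul]

/-- cells of `S` are closed downwards -/
lemma mem_of_R {S : Set E} (hSL : SL l c S) (hcl : IsClosed S) {x z : E} (hz : z ∈ S)
    (hR : R l c x z) : x ∈ S := by
  have hcont : Tendsto (fun t : ℝ => (1 - t) • x + t • z) (𝓝[>] 0) (𝓝 x) := by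
    have : Continuous (fun t : ℝ => (1 - t) • x + t • z) := by fun_prop
    have h := this.tendsto 0
    simp only [sub_zero, one_smul, zero_smul, add_zero] at h
    exact h.mono_left nhdsWithin_le_nhds
  refine hcl.mem_of_tendsto hcont ?_
  have h1 : ∀ᶠ t : ℝ in 𝓝[>] 0, t ∈ Ioo (0:ℝ) 1 := Ioo_mem_nhdsGT one_pos
  filter_upwards [h1] with t ht
  refine hSL z _ ?_ hz
  funext i
  simp only [sg]
  rw [ev_comb _ _ _ _ (by ring)]
  rcases hR i with h | h
  · rw [h, mul_zero, zero_add, sign_mul, sign_pos ht.1, one_mul]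
  · rcases lt_trichotomy (ev l c z i) 0 with h0 | h0 | h0
    · rw [sg, sg, sign_neg h0, sign_eq_neg_one_iff] at h
      rw [sign_neg h0, eq_comm, sign_eq_neg_one_iff]
      nlinarith [ht.1, ht.2]
    · rw [sg, sg, h0, sign_zero, sign_eq_zero_iff] at h
      rw [h0, h]; simp
    · rw [sg, sg, sign_pos h0, sign_eq_one_iff] at h
      rw [sign_pos h0, eq_comm, sign_eq_one_iff]
      nlinarith [ht.1, ht.2, mul_pos ht.1 h0, mul_pos (sub_pos.2 ht.2) h]

/-- existence of a representation along a chain -/
lemma exists_rep [Finite ι] {S : Set E} (hSL : SL l c S) (hcl : IsClosed S)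
    (hbd : Bornology.IsBounded S) (V : Finset E) (hVS : ∀ v ∈ V, v ∈ S)
    (hV : ∀ x ∈ S, ∃ v ∈ V, sg l c v = sg l c x) (n : ℕ) :
    ∀ y ∈ S, Set.ncard {i | ev l c y i ≠ 0} = n → ∃ s ⊆ V, IsChain (R l c) (s : Set E) ∧
      (∀ v ∈ s, R l c v y) ∧ y ∈ convexHull ℝ (s : Set E) := by
  classical
  induction n using Nat.strong_induction_on with
  | _ n ih =>
  intro y hy hn
  obtain ⟨x, hxV, hxy⟩ := hV y hy
  by_cases hyx : y = x
  · refine ⟨{x}, by simpa using hxV, by simp, ?_, by simp [hyx]⟩
    intro v hv
    rw [Finset.mem_singleton.1 hv]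
    exact R_of_sg_eq hxy
  -- some ratio is less than one
  have hex : ∃ i, ev l c x i ≠ 0 ∧ |ev l c y i| < |ev l c x i| := by
    by_contra hcon
    push Not at hcon
    have hray : ∀ s : ℝ, 0 ≤ s → (1 - s) • x + s • y ∈ S := by
      intro s hs
      refine hSL x _ ?_ (hVS x hxV)
      funext i
      simp only [sg]
      rw [ev_comb _ _ _ _ (by ring)]
      have h1 := congrFun hxy i
      simp only [sg] at h1
      rcases lt_trichotomy (ev l c x i) 0 with h0 | h0 | h0
      · have h2 := hcon i h0.ne
        rw [sign_neg h0, eq_comm, sign_eq_neg_one_iff] at h1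
        rw [abs_of_neg h0, abs_of_neg h1] at h2
        rw [sign_neg h0, eq_comm, sign_eq_neg_one_iff]
        nlinarith
      · rw [h0, sign_zero, eq_comm, sign_eq_zero_iff] at h1
        rw [h0, h1]; simp
      · have h2 := hcon i h0.ne'
        rw [sign_pos h0, eq_comm, sign_eq_one_iff] at h1
        rw [abs_of_pos h0, abs_of_pos h1] at h2
        rw [sign_pos h0, eq_comm, sign_eq_one_iff]
        nlinarith
    obtain ⟨C, hC⟩ := hbd.exists_norm_le
    have hyx' : 0 < ‖y - x‖ := norm_pos_iff.2 (sub_ne_zero.2 hyx)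
    have hC0 : 0 ≤ C := (norm_nonneg _).trans (hC y hy)
    set s : ℝ := (C + ‖x‖ + 1) / ‖y - x‖ with hs
    have hs0 : 0 ≤ s := by positivity
    have h3 := hC _ (hray s hs0)
    have h4 : (1 - s) • x + s • y = s • (y - x) + x := by
      rw [sub_smul, smul_sub, one_smul]; abel
    rw [h4] at h3
    have h5 : ‖s • (y - x)‖ ≤ ‖s • (y - x) + x‖ + ‖x‖ := by
      have := norm_sub_le (s • (y - x) + x) x
      simpa using this
    rw [norm_smul, Real.norm_eq_abs, abs_of_nonneg hs0] at h5
    have h6 : s * ‖y - x‖ = C + ‖x‖ + 1 := by rw [hs]; field_simp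
    linarith
  cases nonempty_fintype ι
  set T : Finset ι := Finset.univ.filter fun i => ev l c x i ≠ 0 with hT
  have hTne : T.Nonempty := by
    obtain ⟨i, hi, _⟩ := hex
    exact ⟨i, by simp [hT, hi]⟩
  obtain ⟨j, hj, hjmin⟩ := Finset.exists_min_image T (fun i => ev l c y i / ev l c x i) hTne
  have hj0 : ev l c x j ≠ 0 := by simpa [hT] using hj
  have hratio : ∀ i, ev l c x i ≠ 0 → 0 < ev l c y i / ev l c x i := by
    intro i hi
    have h1 := congrFun hxy i
    simp only [sg] at h1
    rcases lt_or_gt_of_ne hi with h0 | h0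
    · rw [sign_neg h0, eq_comm, sign_eq_neg_one_iff] at h1
      exact div_pos_of_neg_of_neg h1 h0
    · rw [sign_pos h0, eq_comm, sign_eq_one_iff] at h1
      exact div_pos h1 h0
  set r : ℝ := ev l c y j / ev l c x j with hr
  have hr0 : 0 < r := hratio j hj0
  have hr1 : r < 1 := by
    obtain ⟨i, hi, hlt⟩ := hex
    have h1 := hjmin i (by simp [hT, hi])
    refine lt_of_le_of_lt h1 ?_
    have h2 := hratio i hi
    rw [← abs_of_pos h2, abs_div]
    rw [div_lt_one (abs_pos.2 hi)]
    exact hlt
  have hr1' : (0:ℝ) < 1 - r := sub_pos.2 hr1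
  set y' : E := ((1 - r)⁻¹) • y + (1 - (1 - r)⁻¹) • x with hy'
  have hev : ∀ i, ev l c y' i = (1 - r)⁻¹ * (ev l c y i - r * ev l c x i) := by
    intro i
    rw [hy', ev_comb _ _ _ _ (by ring)]
    field_simp
    ring
  have hRy' : R l c y' y := by
    intro i
    by_cases hi : ev l c x i = 0
    · left
      have h1 := congrFun hxy i
      simp only [sg] at h1
      rw [hi, sign_zero, eq_comm, sign_eq_zero_iff] at h1
      rw [hev, hi, h1]; simp
    · have h1 := hjmin i (by simp [hT, hi])
      have h2 : ev l c y' i = (1 - r)⁻¹ * (ev l c y i / ev l c x i - r) * ev l c x i := by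
        rw [hev]; field_simp
      rcases eq_or_lt_of_le h1 with h3 | h3
      · left
        rw [h2, ← h3]; simp [hr]
      · right
        rw [← hxy]
        refine sg_eq_iff (m := (1 - r)⁻¹ * (ev l c y i / ev l c x i - r)) ?_ h2
        exact mul_pos (inv_pos.2 hr1') (sub_pos.2 h3)
  have hy'j : ev l c y' j = 0 := by
    rw [hev, hr]; field_simp; ring
  have hyj : ev l c y j ≠ 0 := by
    intro h
    rw [hr, h, zero_div] at hr0
    exact lt_irrefl _ hr0
  have hy'S : y' ∈ S := mem_of_R hSL hcl hy hRy'
  have hlt : Set.ncard {i | ev l c y' i ≠ 0} < n := by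
    rw [← hn]
    apply Set.ncard_lt_ncard _ (Set.toFinite _)
    refine ⟨?_, ?_⟩
    · intro i hi
      rcases hRy' i with h | h
      · exact absurd h hi
      · intro h2
        exact hi (sg_zero.1 (h.trans (sg_zero.2 h2)))
    · intro hsub
      exact hsub (show j ∈ {i | ev l c y i ≠ 0} from hyj) hy'j
  obtain ⟨s, hsV, hsc, hsR, hmem⟩ := ih _ hlt y' hy'S rfl
  refine ⟨insert x s, ?_, ?_, ?_, ?_⟩
  · exact Finset.insert_subset hxV hsV
  · rw [Finset.coe_insert]
    apply hsc.insert
    intro b hb _
    right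
    exact R_trans (R_trans (hsR b hb) hRy') (R_of_sg_eq hxy.symm)
  · intro v hv
    rcases Finset.mem_insert.1 hv with h | h
    · rw [h]; exact R_of_sg_eq hxy
    · exact R_trans (hsR v h) hRy'
  · have hxm : x ∈ convexHull ℝ ((insert x s : Finset E) : Set E) :=
      subset_convexHull ℝ _ (by simp)
    have hym : y' ∈ convexHull ℝ ((insert x s : Finset E) : Set E) :=
      convexHull_mono (by simp) hmem
    have : y = (1 - r) • y' + r • x := by
      rw [hy', smul_add, smul_smul, smul_smul, mul_inv_cancel₀ hr1'.ne', one_smul, add_assoc,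
        ← add_smul]
      have : (1 - r) * (1 - (1 - r)⁻¹) + r = 0 := by field_simp; ring
      rw [this]; simp
    rw [this]
    exact convex_convexHull ℝ _ hym hxm hr1'.le hr0.le (by ring)

/-- **Triangulation theorem**: a closed bounded semilinear set is the underlying space of a finite
simplicial complex, and each of its simplices has a vertex `v` such that all affine functionals
of the family which vanish at `v` vanish on the whole simplex. -/
theorem exists_complex [Finite ι] {S : Set E} (hSL : SL l c S) (hcl : IsClosed S)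
    (hbd : Bornology.IsBounded S) :
    ∃ K : Geometry.SimplicialComplex ℝ E, K.faces.Finite ∧ K.space = S ∧
      ∀ s ∈ K.faces, ∃ v ∈ s, ∀ w ∈ s, R l c w v := by
  classical
  -- the vertices
  obtain ⟨V, hVS, hV, hinj⟩ : ∃ V : Finset E, (∀ v ∈ V, v ∈ S) ∧
      (∀ x ∈ S, ∃ v ∈ V, sg l c v = sg l c x) ∧
      (∀ v ∈ V, ∀ w ∈ V, sg l c v = sg l c w → v = w) := by
    refine ⟨(Set.toFinite (sg l c '' S)).toFinset.image (Function.invFunOn (sg l c) S),
      ?_, ?_, ?_⟩
    · intro v hv
      rw [Finset.mem_image] at hv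
      obtain ⟨σ, hσ, rfl⟩ := hv
      rw [Set.Finite.mem_toFinset] at hσ
      exact Function.invFunOn_mem hσ
    · intro x hx
      refine ⟨Function.invFunOn (sg l c) S (sg l c x), ?_, ?_⟩
      · exact Finset.mem_image_of_mem _ ((Set.Finite.mem_toFinset _).2 (mem_image_of_mem _ hx))
      · exact Function.invFunOn_eq ⟨x, hx, rfl⟩
    · intro v hv w hw hvw
      rw [Finset.mem_image] at hv hw
      obtain ⟨σ, hσ, rfl⟩ := hv
      obtain ⟨τ, hτ, rfl⟩ := hw
      rw [Set.Finite.mem_toFinset] at hσ hτ
      rw [Function.invFunOn_eq hσ, Function.invFunOn_eq hτ] at hvw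
      rw [hvw]
  -- passing from a subset to weights on `V`
  have ext : ∀ s ⊆ V, IsChain (R l c) (s : Set E) → ∀ w : E → ℝ, (∀ v ∈ s, 0 ≤ w v) →
      (∀ v ∈ V, 0 ≤ (if v ∈ s then w v else 0)) ∧
      IsChain (R l c) {v | v ∈ V ∧ (if v ∈ s then w v else 0) ≠ 0} ∧
      ∑ v ∈ V, (if v ∈ s then w v else 0) • v = ∑ v ∈ s, w v • v ∧
      ∑ v ∈ V, (if v ∈ s then w v else 0) = ∑ v ∈ s, w v := by
    intro s hs hc w hw
    refine ⟨?_, ?_, ?_, ?_⟩
    · intro v _
      split_ifs with h
      · exact hw v h
      · exact le_rfl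
    · refine IsChain.mono ?_ hc
      rintro v ⟨_, hv⟩
      by_contra h
      exact hv (if_neg h)
    · rw [← Finset.sum_subset hs]
      · exact Finset.sum_congr rfl fun v hv => by rw [if_pos hv]
      · intro v _ hv
        rw [if_neg hv, zero_smul]
    · rw [← Finset.sum_subset hs]
      · exact Finset.sum_congr rfl fun v hv => by rw [if_pos hv]
      · intro v _ hv
        rw [if_neg hv]
  let K : Geometry.SimplicialComplex ℝ E :=
    { faces := {s | s.Nonempty ∧ s ⊆ V ∧ IsChain (R l c) (s : Set E)}
      isRelLowerSet_faces := by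
        intro s hs
        refine ⟨hs.1, fun t ht htn => ⟨htn, ht.trans hs.2.1, hs.2.2.mono (by exact_mod_cast ht)⟩⟩
      indep := by
        intro s hs
        rw [affineIndependent_iff]
        intro t w hw0 hw1 e he
        -- positive and negative parts
        set W : E → ℝ := fun v => if h : v ∈ s then (if (⟨v, h⟩ : s) ∈ t then w ⟨v, h⟩ else 0)
          else 0 with hW
        have hWs : ∀ v : s, W v = if v ∈ t then w v else 0 := by
          intro v
          simp [hW]
        have hsum0 : ∑ v ∈ s, W v = 0 := by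
          rw [← Finset.sum_coe_sort s]
          simp only [hWs]
          rw [Finset.sum_ite_mem, Finset.univ_inter]
          exact hw0
        have hsum1 : ∑ v ∈ s, W v • v = 0 := by
          rw [← Finset.sum_coe_sort s (fun v => W v • v)]
          simp only [hWs, ite_smul, zero_smul]
          rw [Finset.sum_ite_mem, Finset.univ_inter]
          exact hw1
        obtain ⟨p1, p2, p3, p4⟩ := ext s hs.2.1 hs.2.2 (fun v => (W v)⁺) (fun v _ => posPart_nonneg _)
        obtain ⟨q1, q2, q3, q4⟩ := ext s hs.2.1 hs.2.2 (fun v => (W v)⁻) (fun v _ => negPart_nonneg _)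
        have hpq : ∑ v ∈ s, (W v)⁺ • v = ∑ v ∈ s, (W v)⁻ • v := by
          rw [← sub_eq_zero, ← Finset.sum_sub_distrib, ← hsum1]
          exact Finset.sum_congr rfl fun v _ => by rw [← sub_smul, posPart_sub_negPart]
        have hpq' : ∑ v ∈ s, (W v)⁺ = ∑ v ∈ s, (W v)⁻ := by
          rw [← sub_eq_zero, ← Finset.sum_sub_distrib, ← hsum0]
          exact Finset.sum_congr rfl fun v _ => by rw [posPart_sub_negPart]
        have := uniq V hinj _ _ _ le_rfl p1 q1 p2 q2 (by rw [p3, q3, hpq]) (by rw [p4, q4, hpq'])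
          e (hs.2.1 e.2)
        simp only [Finset.coe_mem, if_true] at this
        have h0 : W e = 0 := by
          rw [← posPart_sub_negPart (W e), this, sub_self]
        rw [hWs, if_pos he] at h0
        exact h0
      inter_subset_convexHull := by
        intro s t hs ht x hx
        rw [Set.mem_inter_iff, Finset.mem_convexHull', Finset.mem_convexHull'] at hx
        obtain ⟨⟨w, hw0, hw1, hwx⟩, ⟨u, hu0, hu1, hux⟩⟩ := hx
        obtain ⟨p1, p2, p3, p4⟩ := ext s hs.2.1 hs.2.2 w hw0
        obtain ⟨q1, q2, q3, q4⟩ := ext t ht.2.1 ht.2.2 u hu0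
        have := uniq V hinj _ _ _ le_rfl p1 q1 p2 q2 (by rw [p3, q3, hwx, hux])
          (by rw [p4, q4, hw1, hu1])
        rw [← Finset.coe_inter, Finset.mem_convexHull']
        have hz : ∀ v ∈ s, v ∉ s ∩ t → w v = 0 := by
          intro v hv hvt
          have h1 := this v (hs.2.1 hv)
          rw [if_pos hv, if_neg (fun h => hvt (Finset.mem_inter.2 ⟨hv, h⟩))] at h1
          exact h1
        refine ⟨w, fun v hv => hw0 v (Finset.mem_inter.1 hv).1, ?_, ?_⟩
        · rw [← hw1]
          exact Finset.sum_subset Finset.inter_subset_left hz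
        · rw [← hwx]
          refine Finset.sum_subset Finset.inter_subset_left fun v hv hvt => ?_
          rw [hz v hv hvt, zero_smul] }
  refine ⟨K, ?_, ?_, ?_⟩
  · apply (Set.toFinite (V.powerset : Set (Finset E))).subset
    rintro s ⟨_, hs, _⟩
    simpa using hs
  · apply Set.Subset.antisymm
    · intro x hx
      rw [Geometry.SimplicialComplex.mem_space_iff] at hx
      obtain ⟨s, hs, hxs⟩ := hx
      obtain ⟨t, ht, htop⟩ := exists_top (l := l) (c := c) s hs.1 hs.2.2
      refine mem_of_R hSL hcl (hVS t (hs.2.1 ht)) ?_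
      -- all points of the simplex are below its top vertex
      rw [Finset.mem_convexHull'] at hxs
      obtain ⟨w, hw0, hw1, hwx⟩ := hxs
      intro i
      have hval : ev l c x i = ∑ v ∈ s, w v * ev l c v i := by
        rw [ev_sum, hwx, hw1, mul_one]; rfl
      by_cases h0 : ev l c x i = 0
      · exact Or.inl h0
      right
      have hnn : ∀ v ∈ s, w v * ev l c v i = 0 ∨
          SignType.sign (w v * ev l c v i) = sg l c t i := by
        intro v hv
        rcases (hw0 v hv).eq_or_lt with h | h
        · left; rw [← h, zero_mul]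
        · rcases htop v hv i with h1 | h1
          · left; rw [h1, mul_zero]
          · right
            rw [sign_mul, sign_pos h, one_mul]; exact h1
      simp only [sg] at hnn ⊢
      rcases lt_trichotomy (ev l c t i) 0 with h1 | h1 | h1
      · rw [sign_neg h1] at hnn ⊢
        rw [sign_eq_neg_one_iff]
        refine lt_of_le_of_ne ?_ h0
        rw [hval]
        apply Finset.sum_nonpos
        intro v hv
        rcases hnn v hv with h2 | h2
        · exact h2.le
        · exact (sign_eq_neg_one_iff.1 h2).le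
      · exfalso
        apply h0
        rw [hval]
        apply Finset.sum_eq_zero
        intro v hv
        rcases hnn v hv with h2 | h2
        · exact h2
        · rw [h1, sign_zero] at h2
          exact sign_eq_zero_iff.1 h2
      · rw [sign_pos h1] at hnn ⊢
        rw [sign_eq_one_iff]
        refine lt_of_le_of_ne ?_ (Ne.symm h0)
        rw [hval]
        apply Finset.sum_nonneg
        intro v hv
        rcases hnn v hv with h2 | h2
        · exact h2.ge
        · exact (sign_eq_one_iff.1 h2).le
    · intro x hx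
      obtain ⟨s, hsV, hsc, -, hmem⟩ := exists_rep hSL hcl hbd V hVS hV _ x hx rfl
      rw [Geometry.SimplicialComplex.mem_space_iff]
      refine ⟨s, ⟨?_, hsV, hsc⟩, hmem⟩
      by_contra hne
      rw [Finset.not_nonempty_iff_eq_empty] at hne
      rw [hne] at hmem
      simp at hmem
  · intro s hs
    exact exists_top s hs.1 hs.2.2

end Pool.Agent.H745.Triang
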