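import Mathlib
import Pool.Agent.H745.Triang

/-!
# Semilinear predicates and triangulations
-/

set_option autoImplicit false

open Set Topology Filter

namespace Pool.Agent.H745.SemiLin

open Pool.Agent.H745.Triang

variable {E : Type*} [NormedAddCommGroup E] [NormedSpace ℝ E]

/-- `P` is semilinear: its truth depends only on the signs of finitely many affine functionals. -/
def SLP (P : E → Prop) : Prop :=
  ∃ F : Finset (E →ᵃ[ℝ] ℝ), ∀ x y, (∀ f ∈ F, SignType.sign (f x) = SignType.sign (f y)) →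
    P x → P y

lemma SLP.congr {P Q : E → Prop} (h : SLP P) (hPQ : ∀ x, P x ↔ Q x) : SLP Q := by
  obtain ⟨F, hF⟩ := h
  exact ⟨F, fun x y hxy hQ => (hPQ y).1 (hF x y hxy ((hPQ x).2 hQ))⟩

lemma SLP.const (p : Prop) : SLP (fun _ : E => p) := ⟨∅, fun _ _ _ h => h⟩

lemma SLP.and {P Q : E → Prop} (h : SLP P) (h' : SLP Q) : SLP (fun x => P x ∧ Q x) := by
  classical
  obtain ⟨F, hF⟩ := h
  obtain ⟨G, hG⟩ := h'
  refine ⟨F ∪ G, fun x y hxy hQ => ⟨hF x y (fun f hf => hxy f (Finset.mem_union_left _ hf)) hQ.1,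
    hG x y (fun f hf => hxy f (Finset.mem_union_right _ hf)) hQ.2⟩⟩

lemma SLP.or {P Q : E → Prop} (h : SLP P) (h' : SLP Q) : SLP (fun x => P x ∨ Q x) := by
  classical
  obtain ⟨F, hF⟩ := h
  obtain ⟨G, hG⟩ := h'
  refine ⟨F ∪ G, fun x y hxy hQ => hQ.imp
    (hF x y (fun f hf => hxy f (Finset.mem_union_left _ hf)))
    (hG x y (fun f hf => hxy f (Finset.mem_union_right _ hf)))⟩

lemma SLP.not {P : E → Prop} (h : SLP P) : SLP (fun x => ¬ P x) := by
  obtain ⟨F, hF⟩ := h
  exact ⟨F, fun x y hxy hx hy => hx (hF y x (fun f hf => (hxy f hf).symm) hy)⟩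

lemma SLP.imp {P Q : E → Prop} (h : SLP P) (h' : SLP Q) : SLP (fun x => P x → Q x) :=
  (h.not.or h').congr fun x => by tauto

lemma SLP.all_finset {α : Type*} (A : Finset α) {P : α → E → Prop} (h : ∀ a ∈ A, SLP (P a)) :
    SLP (fun x => ∀ a ∈ A, P a x) := by
  classical
  induction A using Finset.induction_on with
  | empty => exact (SLP.const True).congr fun x => by simp
  | insert a A _ ih =>
    exact ((h a (Finset.mem_insert_self a A)).and
      (ih fun b hb => h b (Finset.mem_insert_of_mem hb))).congr fun x => by simp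

lemma SLP.nonneg (f : E →ᵃ[ℝ] ℝ) : SLP (fun x => 0 ≤ f x) := by
  refine ⟨{f}, fun x y hxy hx => ?_⟩
  have h := hxy f (Finset.mem_singleton_self f)
  rcases hx.eq_or_lt with h0 | h0
  · rw [← h0, sign_zero, eq_comm, sign_eq_zero_iff] at h
    exact h.ge
  · rw [sign_pos h0, eq_comm, sign_eq_one_iff] at h
    exact h.le

lemma SLP.le (f g : E →ᵃ[ℝ] ℝ) : SLP (fun x => f x ≤ g x) :=
  (SLP.nonneg (g - f)).congr fun x => by simp [sub_nonneg]

lemma SLP.eq (f g : E →ᵃ[ℝ] ℝ) : SLP (fun x => f x = g x) :=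
  ((SLP.le f g).and (SLP.le g f)).congr fun x => ⟨fun h => le_antisymm h.1 h.2,
    fun h => ⟨h.le, h.ge⟩⟩

/-- elimination of one absolute value -/
lemma SLP.abs_elim {f : E →ᵃ[ℝ] ℝ} {P : E → ℝ → Prop} (h1 : SLP (fun x => P x (f x)))
    (h2 : SLP (fun x => P x (-(f x)))) : SLP (fun x => P x |f x|) := by
  refine (((SLP.nonneg f).and h1).or ((SLP.nonneg f).not.and h2)).congr fun x => ?_
  by_cases h : 0 ≤ f x
  · simp [h, abs_of_nonneg h]
  · simp [h, abs_of_neg (not_le.1 h)]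

/-- **Triangulation theorem** for compact semilinear sets. -/
theorem exists_complex' {S : Set E} (hSL : SLP (fun x => x ∈ S)) (hcl : IsClosed S)
    (hbd : Bornology.IsBounded S) (G : Finset (E →ᵃ[ℝ] ℝ)) :
    ∃ K : Geometry.SimplicialComplex ℝ E, K.faces.Finite ∧ K.space = S ∧
      ∀ s ∈ K.faces, ∃ v ∈ s, ∀ w ∈ s, ∀ f ∈ G, f v = 0 → f w = 0 := by
  classical
  obtain ⟨F, hF⟩ := hSL
  let ι := {f // f ∈ F ∪ G}
  let l : ι → E →ₗ[ℝ] ℝ := fun f => f.1.linear
  let c : ι → ℝ := fun f => f.1 0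
  have hev : ∀ x (i : ι), ev l c x i = i.1 x := by
    intro x i
    have := congrFun (AffineMap.decomp i.1) x
    simp only [ev, l, c]
    rw [this]
    rfl
  obtain ⟨K, h1, h2, h3⟩ := exists_complex (l := l) (c := c) (S := S) (by
    intro x y hxy hx
    refine hF x y (fun f hf => ?_) hx
    have := congrFun hxy ⟨f, Finset.mem_union_left _ hf⟩
    simp only [sg, hev] at this
    exact this) hcl hbd
  refine ⟨K, h1, h2, fun s hs => ?_⟩
  obtain ⟨v, hv, hR⟩ := h3 s hs
  refine ⟨v, hv, fun w hw f hf hfv => ?_⟩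
  rcases hR w hw ⟨f, Finset.mem_union_right _ hf⟩ with h | h
  · rwa [hev] at h
  · simp only [sg, hev] at h
    rw [hfv, sign_zero, sign_eq_zero_iff] at h
    exact h

end Pool.Agent.H745.SemiLin
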