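import Mathlib
import Pool.Agent.H745.SemiLin
import Pool.Agent.H745.Model

/-!
# The model is a three-dimensional polyhedron
-/

set_option autoImplicit false

open Set Topology Filter

namespace Pool.Agent.H745.Dim

open Pool.Agent.H745.SemiLin Pool.Agent.H745.Model

/-- real functions which are affine -/
def IsAff (g : E5 → ℝ) : Prop := ∃ f : E5 →ᵃ[ℝ] ℝ, ∀ x, f x = g x

lemma IsAff.const (c : ℝ) : IsAff (fun _ => c) := ⟨AffineMap.const ℝ E5 c, fun _ => rfl⟩

/-- coordinate functional -/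
noncomputable def co (i : Fin 5) : E5 →ᵃ[ℝ] ℝ :=
  ((EuclideanSpace.proj i : E5 →L[ℝ] ℝ) : E5 →ₗ[ℝ] ℝ).toAffineMap

@[simp] lemma co_apply (i : Fin 5) (x : E5) : co i x = x i := rfl

lemma IsAff.co (i : Fin 5) : IsAff (fun x => x i) := ⟨Dim.co i, fun _ => rfl⟩

lemma IsAff.add {g h : E5 → ℝ} (hg : IsAff g) (hh : IsAff h) : IsAff (fun x => g x + h x) := by
  obtain ⟨f, hf⟩ := hg
  obtain ⟨f', hf'⟩ := hh
  exact ⟨f + f', fun x => by rw [AffineMap.coe_add, Pi.add_apply, hf, hf']⟩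

lemma IsAff.const_mul {g : E5 → ℝ} (c : ℝ) (hg : IsAff g) : IsAff (fun x => c * g x) := by
  obtain ⟨f, hf⟩ := hg
  exact ⟨c • f, fun x => by rw [AffineMap.coe_smul, Pi.smul_apply, hf, smul_eq_mul]⟩

lemma IsAff.neg {g : E5 → ℝ} (hg : IsAff g) : IsAff (fun x => - g x) := by
  obtain ⟨f, hf⟩ := hg.const_mul (-1)
  exact ⟨f, fun x => by rw [hf]; ring⟩

lemma IsAff.sub {g h : E5 → ℝ} (hg : IsAff g) (hh : IsAff h) : IsAff (fun x => g x - h x) := by
  obtain ⟨f, hf⟩ := hg.add hh.neg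
  exact ⟨f, fun x => by rw [hf]; ring⟩

lemma SLP.le' {g h : E5 → ℝ} (hg : IsAff g) (hh : IsAff h) : SLP (fun x => g x ≤ h x) := by
  obtain ⟨f, hf⟩ := hg
  obtain ⟨f', hf'⟩ := hh
  exact (SLP.le f f').congr fun x => by rw [hf, hf']

lemma SLP.eq' {g h : E5 → ℝ} (hg : IsAff g) (hh : IsAff h) : SLP (fun x => g x = h x) := by
  obtain ⟨f, hf⟩ := hg
  obtain ⟨f', hf'⟩ := hh
  exact (SLP.eq f f').congr fun x => by rw [hf, hf']

lemma SLP.abs' {g : E5 → ℝ} (hg : IsAff g) {P : E5 → ℝ → Prop} (h1 : SLP (fun x => P x (g x)))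
    (h2 : SLP (fun x => P x (-(g x)))) : SLP (fun x => P x |g x|) := by
  obtain ⟨f, hf⟩ := hg
  have := SLP.abs_elim (f := f) (P := P) (h1.congr fun x => by rw [hf])
    (h2.congr fun x => by rw [hf])
  exact this.congr fun x => by rw [hf]

/-- two absolute values -/
lemma SLP.abs2 {g h : E5 → ℝ} (hg : IsAff g) (hh : IsAff h) {P : E5 → ℝ → ℝ → Prop}
    (H : ∀ g' h' : E5 → ℝ, IsAff g' → IsAff h' → SLP (fun x => P x (g' x) (h' x))) :
    SLP (fun x => P x |g x| |h x|) := by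
  refine SLP.abs' (P := fun x t => P x t |h x|) hg ?_ ?_
  · refine SLP.abs' (P := fun x t => P x (g x) t) hh ?_ ?_
    · exact H g h hg hh
    · exact H g _ hg hh.neg
  · refine SLP.abs' (P := fun x t => P x (-(g x)) t) hh ?_ ?_
    · exact H _ h hg.neg hh
    · exact H _ _ hg.neg hh.neg

lemma slp_S (k : ℕ) : SLP (fun p => p ∈ S k) := by
  have c := IsAff.co
  have hp23 : SLP (fun p : E5 => |p 2| + |p 3| = 1) :=
    SLP.abs2 (P := fun _ s t => s + t = 1) (c 2) (c 3)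
      fun g h hg hh => SLP.eq' (hg.add hh) (IsAff.const 1)
  have hp01 : SLP (fun p : E5 => |p 0| + |p 1| ≤ 1) :=
    SLP.abs2 (P := fun _ s t => s + t ≤ 1) (c 0) (c 1)
      fun g h hg hh => SLP.le' (hg.add hh) (IsAff.const 1)
  have hp01' : SLP (fun p : E5 => |p 0| + |p 1| = 1) :=
    SLP.abs2 (P := fun _ s t => s + t = 1) (c 0) (c 1)
      fun g h hg hh => SLP.eq' (hg.add hh) (IsAff.const 1)
  refine hp23.and (hp01.and ((SLP.le' (IsAff.const 0) (c 4)).and
    ((SLP.le' (c 4) (IsAff.const 3)).and (((SLP.eq' (c 4) (IsAff.const 0)).or hp01').and ?_))))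
  refine SLP.all_finset _ fun ε _ => SLP.all_finset _ fun ε' _ => SLP.all_finset _ fun n _ => ?_
  refine (SLP.le' (IsAff.const 0) ((c 1).const_mul ε)).imp
    ((SLP.le' (IsAff.const 0) ((c 3).const_mul ε')).imp ?_)
  have h1 : IsAff (fun p : E5 => p 4 - 3 / 2) := (c 4).sub (IsAff.const _)
  have h2 : IsAff (fun p : E5 => ε * (5 / 2) * (1 - p 0) + ε' * (k / 2) * (1 - p 2) - n) :=
    ((((IsAff.const 1).sub (c 0)).const_mul _).add (((IsAff.const 1).sub (c 2)).const_mul _)).sub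
      (IsAff.const _)
  exact SLP.abs2 (P := fun _ s t => 1 ≤ s + 6 * t) h1 h2
    fun g h hg hh => SLP.le' (IsAff.const 1) (hg.add (hh.const_mul 6))

/-- a simplex on which two independent affine conditions hold has at most four vertices -/
lemma card_le_four {s : Finset E5} (hs : AffineIndependent ℝ ((↑) : s → E5)) {v : E5}
    (hv : v ∈ s) (L : E5 →ₗ[ℝ] ℝ × ℝ) (hL : Function.Surjective L) (h : ∀ w ∈ s, L w = L v) :
    s.card ≤ 4 := by
  have hne : Nonempty s := ⟨⟨v, hv⟩⟩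
  have h1 := hs.finrank_vectorSpan_add_one
  rw [Fintype.card_coe] at h1
  have h2 : vectorSpan ℝ (range ((↑) : s → E5)) ≤ LinearMap.ker L := by
    rw [vectorSpan_def, Submodule.span_le]
    rintro _ ⟨x, ⟨x', rfl⟩, y, ⟨y', rfl⟩, rfl⟩
    rw [SetLike.mem_coe, LinearMap.mem_ker]
    simp only [vsub_eq_sub, map_sub]
    rw [h _ x'.2, h _ y'.2, sub_self]
  have h3 := Submodule.finrank_mono h2
  have h4 := L.finrank_range_add_finrank_ker
  rw [LinearMap.range_eq_top.2 hL, finrank_top, finrank_euclideanSpace_fin] at h4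
  have h5 : Module.finrank ℝ (ℝ × ℝ) = 2 := by simp
  omega

/-- linear functionals used for the dimension bound -/
noncomputable def lin (σ τ : ℝ) (i j : Fin 5) : E5 →ₗ[ℝ] ℝ :=
  σ • ((EuclideanSpace.proj i : E5 →L[ℝ] ℝ) : E5 →ₗ[ℝ] ℝ) +
  τ • ((EuclideanSpace.proj j : E5 →L[ℝ] ℝ) : E5 →ₗ[ℝ] ℝ)

lemma lin_apply (σ τ : ℝ) (i j : Fin 5) (x : E5) : lin σ τ i j x = σ * x i + τ * x j := rfl

/-- affine functionals used for the dimension bound -/
noncomputable def af (σ τ c : ℝ) (i j : Fin 5) : E5 →ᵃ[ℝ] ℝ :=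
  (lin σ τ i j).toAffineMap - AffineMap.const ℝ E5 c

lemma af_apply (σ τ c : ℝ) (i j : Fin 5) (x : E5) : af σ τ c i j x = σ * x i + τ * x j - c := rfl

open Classical in
/-- the family of functionals -/
noncomputable def G : Finset (E5 →ᵃ[ℝ] ℝ) :=
  {af 1 0 0 4 4} ∪ (({1, -1} : Finset ℝ) ×ˢ ({1, -1} : Finset ℝ)).image
    (fun q => af q.1 q.2 1 0 1) ∪ (({1, -1} : Finset ℝ) ×ˢ ({1, -1} : Finset ℝ)).image
    (fun q => af q.1 q.2 1 2 3)

lemma abs_form {a b : ℝ} (h : |a| + |b| = 1) : ∃ σ τ : ℝ, (σ = 1 ∨ σ = -1) ∧ (τ = 1 ∨ τ = -1) ∧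
    σ * a + τ * b - 1 = 0 := by
  rcases abs_choice a with ha | ha <;> rcases abs_choice b with hb | hb
  · exact ⟨1, 1, Or.inl rfl, Or.inl rfl, by rw [ha, hb] at h; linarith⟩
  · exact ⟨1, -1, Or.inl rfl, Or.inr rfl, by rw [ha, hb] at h; linarith⟩
  · exact ⟨-1, 1, Or.inr rfl, Or.inl rfl, by rw [ha, hb] at h; linarith⟩
  · exact ⟨-1, -1, Or.inr rfl, Or.inr rfl, by rw [ha, hb] at h; linarith⟩

lemma card_le_of {k : ℕ} {s : Finset E5} (hs : AffineIndependent ℝ ((↑) : s → E5)) {v : E5}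
    (hv : v ∈ s) (hvS : v ∈ S k) (h : ∀ w ∈ s, ∀ f ∈ G, f v = 0 → f w = 0) : s.card ≤ 4 := by
  classical
  obtain ⟨h1, -, -, -, h5, -⟩ := hvS
  obtain ⟨σ, τ, hσ, hτ, hst⟩ := abs_form h1
  have hσ2 : σ * σ = 1 := by rcases hσ with rfl | rfl <;> norm_num
  have hm1 : af σ τ 1 2 3 ∈ G := by
    unfold G
    apply Finset.mem_union_right
    refine Finset.mem_image.2 ⟨(σ, τ), ?_, rfl⟩
    simp only [Finset.mem_product, Finset.mem_insert, Finset.mem_singleton]
    exact ⟨hσ, hτ⟩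
  rcases h5 with h5 | h5
  · refine card_le_four hs hv ((lin 1 0 4 4).prod (lin σ τ 2 3)) ?_ ?_
    · rintro ⟨a, b⟩
      refine ⟨!₂[0, 0, b * σ, 0, a], ?_⟩
      simp only [LinearMap.prod_apply, Function.prod_apply, lin_apply, Prod.mk.injEq]
      constructor
      · simp
      · simp
        linear_combination b * hσ2
    · intro w hw
      have e1 := h w hw (af 1 0 0 4 4) (by simp [G]) (by rw [af_apply, h5]; ring)
      have e2 := h w hw _ hm1 hst
      rw [af_apply] at e1 e2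
      simp only [LinearMap.prod_apply, Function.prod_apply, lin_apply, Prod.mk.injEq]
      constructor
      · linarith
      · linarith
  · obtain ⟨σ', τ', hσ', hτ', hst'⟩ := abs_form h5
    have hσ2' : σ' * σ' = 1 := by rcases hσ' with rfl | rfl <;> norm_num
    have hm2 : af σ' τ' 1 0 1 ∈ G := by
      unfold G
      apply Finset.mem_union_left
      apply Finset.mem_union_right
      refine Finset.mem_image.2 ⟨(σ', τ'), ?_, rfl⟩
      simp only [Finset.mem_product, Finset.mem_insert, Finset.mem_singleton]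
      exact ⟨hσ', hτ'⟩
    refine card_le_four hs hv ((lin σ' τ' 0 1).prod (lin σ τ 2 3)) ?_ ?_
    · rintro ⟨a, b⟩
      refine ⟨!₂[a * σ', 0, b * σ, 0, 0], ?_⟩
      simp only [LinearMap.prod_apply, Function.prod_apply, lin_apply, Prod.mk.injEq]
      constructor
      · simp
        linear_combination a * hσ2'
      · simp
        linear_combination b * hσ2
    · intro w hw
      have e1 := h w hw _ hm2 hst'
      have e2 := h w hw _ hm1 hst
      rw [af_apply] at e1 e2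
      simp only [LinearMap.prod_apply, Function.prod_apply, lin_apply, Prod.mk.injEq]
      constructor
      · linarith
      · linarith

/-- projection to three coordinates -/
noncomputable def pr : E5 →ₗ[ℝ] (Fin 3 → ℝ) :=
  LinearMap.pi ![((EuclideanSpace.proj 0 : E5 →L[ℝ] ℝ) : E5 →ₗ[ℝ] ℝ),
    ((EuclideanSpace.proj 1 : E5 →L[ℝ] ℝ) : E5 →ₗ[ℝ] ℝ),
    ((EuclideanSpace.proj 2 : E5 →L[ℝ] ℝ) : E5 →ₗ[ℝ] ℝ)]

/-- a cube in the projection of the model -/
lemma cube_sub (k : ℕ) : (Set.pi univ fun _ : Fin 3 => Ioo (0 : ℝ) (1 / 2)) ⊆ pr '' S k := by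
  intro x hx
  have h0 := hx 0 (mem_univ _)
  have h1 := hx 1 (mem_univ _)
  have h2 := hx 2 (mem_univ _)
  refine ⟨!₂[x 0, x 1, x 2, 1 - x 2, 0], ⟨?_, ?_, ?_, ?_, ?_, ?_⟩, ?_⟩
  · change |x 2| + |1 - x 2| = 1
    rw [abs_of_pos h2.1, abs_of_pos (by linarith [h2.2])]
    ring
  · change |x 0| + |x 1| ≤ 1
    rw [abs_of_pos h0.1, abs_of_pos h1.1]
    linarith [h0.2, h1.2]
  · exact le_refl (0 : ℝ)
  · change (0 : ℝ) ≤ 3
    norm_num
  · exact Or.inl rfl
  · intro ε _ ε' _ n _ _ _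
    change 1 ≤ |(0 : ℝ) - 3 / 2| + 6 * |_|
    have : |(0 : ℝ) - 3 / 2| = 3 / 2 := by rw [zero_sub, abs_neg]; norm_num
    rw [this]
    have := abs_nonneg (ε * (5 / 2) * (1 - x 0) + ε' * (k / 2) * (1 - x 2) - n)
    change 1 ≤ 3 / 2 + 6 * |ε * (5 / 2) * (1 - x 0) + ε' * (k / 2) * (1 - x 2) - n|
    linarith
  · funext i
    fin_cases i <;> rfl

lemma exists_big {k : ℕ} {K : Geometry.SimplicialComplex ℝ E5} (hfin : K.faces.Finite)
    (hK : K.space = S k) : ∃ s ∈ K.faces, 4 ≤ s.card := by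
  classical
  by_contra hcon
  push Not at hcon
  have hzero : ∀ s ∈ K.faces, MeasureTheory.volume (pr '' (convexHull ℝ (s : Set E5))) = 0 := by
    intro s hs
    have hne := K.nonempty_of_mem_faces hs
    have hc := hcon s hs
    have hsub : pr '' (convexHull ℝ (s : Set E5)) ⊆
        (affineSpan ℝ ((s.image pr : Finset (Fin 3 → ℝ)) : Set (Fin 3 → ℝ)) :
          Set (Fin 3 → ℝ)) := by
      rw [pr.image_convexHull, Finset.coe_image]
      exact convexHull_subset_affineSpan _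
    refine MeasureTheory.measure_mono_null hsub (MeasureTheory.Measure.addHaar_affineSubspace _ _ ?_)
    intro htop
    obtain ⟨m, hm⟩ : ∃ m, s.card = m + 1 := ⟨s.card - 1, by
      have := Finset.card_pos.2 hne
      omega⟩
    have h1 := finrank_vectorSpan_image_finset_le ℝ pr s hm
    rw [← direction_affineSpan, htop, AffineSubspace.direction_top, finrank_top] at h1
    simp at h1
    omega
  have hcover : pr '' S k ⊆ ⋃ s ∈ K.faces, pr '' (convexHull ℝ (s : Set E5)) := by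
    rintro _ ⟨x, hx, rfl⟩
    rw [← hK, Geometry.SimplicialComplex.mem_space_iff] at hx
    obtain ⟨s, hs, hxs⟩ := hx
    exact mem_iUnion₂.2 ⟨s, hs, mem_image_of_mem _ hxs⟩
  have hnull : MeasureTheory.volume (⋃ s ∈ K.faces, pr '' (convexHull ℝ (s : Set E5))) = 0 :=
    (MeasureTheory.measure_biUnion_null_iff hfin.countable).2 hzero
  have hcube := MeasureTheory.measure_mono_null ((cube_sub k).trans hcover) hnull
  have hopen : IsOpen (Set.pi univ fun _ : Fin 3 => Ioo (0 : ℝ) (1 / 2)) :=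
    isOpen_set_pi finite_univ fun _ _ => isOpen_Ioo
  have hpos := hopen.measure_pos MeasureTheory.volume
    ⟨fun _ => 1 / 4, fun _ _ => ⟨by norm_num, by norm_num⟩⟩
  rw [hcube] at hpos
  exact lt_irrefl _ hpos

/-- The model is the underlying space of a finite simplicial complex of dimension three. -/
theorem exists_complex3 {k : ℕ} (hk : k ≤ 2) : ∃ K : Geometry.SimplicialComplex ℝ E5,
    K.faces.Finite ∧ (∀ s ∈ K.faces, s.card ≤ 4) ∧ (∃ s ∈ K.faces, s.card = 4) ∧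
    K.space = S k := by
  have hcomp := isCompact_S hk
  obtain ⟨K, h1, h2, h3⟩ := exists_complex' (slp_S k) hcomp.isClosed hcomp.isBounded G
  have h4 : ∀ s ∈ K.faces, s.card ≤ 4 := by
    intro s hs
    obtain ⟨v, hv, hR⟩ := h3 s hs
    have hvS : v ∈ S k := by
      rw [← h2]
      exact K.subset_space hs hv
    exact card_le_of (K.indep hs) hv hvS hR
  obtain ⟨s, hs, hs4⟩ := exists_big h1 h2
  exact ⟨K, h1, h4, ⟨s, hs, le_antisymm (h4 s hs) hs4⟩, h2⟩

end Pool.Agent.H745.Dim
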